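import Mathlib

/-!
# AUT project, block G3: the t-trick (abstract part)

A cocycle of a group `X` with values in a finite module `M` is a coboundary as soon as `X` is
generated by the centralisers of the elements of a commuting set `S` of elements without
non-zero fixed vectors.
-/

set_option autoImplicit false

namespace QH42

/-- A cocycle vanishing at a fixed point free `s` vanishes on the centraliser of `s`. -/
theorem cocycle_centralizer {X M : Type*} [Group X] [AddCommGroup M] [DistribMulAction X M]
    (f : X → M) (hf : ∀ g h, f (g * h) = f g + g • f h) (s : X)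
    (hs : ∀ m : M, s • m = m → m = 0) (h0 : f s = 0) (g : X) (hg : g * s = s * g) :
    f g = 0 := by
  apply hs
  have h1 := hf g s
  have h2 := hf s g
  rw [h0] at h1 h2
  simp only [smul_zero, add_zero, zero_add] at h1 h2
  rw [← h2, ← hg, h1]

/-- The t-trick. -/
theorem cocycle_coboundary {X M : Type*} [Group X] [AddCommGroup M] [DistribMulAction X M]
    [Finite M] (S : Set X) (hne : S.Nonempty)
    (hfix : ∀ s ∈ S, ∀ m : M, s • m = m → m = 0)
    (hcomm : ∀ s ∈ S, ∀ s' ∈ S, s * s' = s' * s)
    (hgen : Subgroup.closure {g : X | ∃ s ∈ S, g * s = s * g} = ⊤)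
    (f : X → M) (hf : ∀ g h, f (g * h) = f g + g • f h) :
    ∃ m : M, ∀ g, f g = g • m - m := by
  obtain ⟨s0, hs0⟩ := hne
  have hinj : Function.Injective (fun m : M => s0 • m - m) := by
    intro a b hab
    have h1 : s0 • (a - b) = a - b := by
      simp only at hab
      rw [smul_sub]
      have h2 : s0 • a = s0 • b - b + a := by rw [← hab]; abel
      rw [h2]; abel
    have h2 := hfix s0 hs0 _ h1
    exact sub_eq_zero.mp h2
  obtain ⟨m, hm⟩ := (Finite.injective_iff_surjective.mp hinj) (f s0)
  refine ⟨m, ?_⟩
  set f' : X → M := fun g => f g - (g • m - m) with hf'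
  have hf'c : ∀ g h, f' (g * h) = f' g + g • f' h := by
    intro g h
    simp only [hf', hf, mul_smul, smul_sub]
    abel
  have h00 : f' s0 = 0 := by
    simp only [hf']
    rw [← hm]
    simp
  have h1 : ∀ s ∈ S, f' s = 0 := fun s hs =>
    cocycle_centralizer f' hf'c s0 (hfix s0 hs0) h00 s (hcomm s hs s0 hs0)
  have hone : f' 1 = 0 := by
    have := hf'c 1 1
    simp only [mul_one, one_smul] at this
    exact left_eq_add.mp this
  let K : Subgroup X :=
    { carrier := {g | f' g = 0}
      mul_mem' := by
        intro a b ha hb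
        simp only [Set.mem_ofPred_eq] at ha hb ⊢
        rw [hf'c, ha, hb, smul_zero, add_zero]
      one_mem' := hone
      inv_mem' := by
        intro a ha
        simp only [Set.mem_ofPred_eq] at ha ⊢
        have h2 := hf'c a⁻¹ a
        rw [ha, inv_mul_cancel, hone, smul_zero, add_zero] at h2
        exact h2.symm }
  have hK : Subgroup.closure {g : X | ∃ s ∈ S, g * s = s * g} ≤ K := by
    rw [Subgroup.closure_le]
    rintro g ⟨s, hs, hgs⟩
    exact cocycle_centralizer f' hf'c s (hfix s hs) (h1 s hs) g hgs
  intro g
  have hg : g ∈ K := hK (by rw [hgen]; trivial)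
  have hg' : f' g = 0 := hg
  simp only [hf'] at hg'
  exact sub_eq_zero.mp hg'

/-- In characteristic two, `1 + s + ... + s^6 = 0` on `M` makes `s` fixed point free. -/
theorem fixfree_of_sum {X M : Type*} [Group X] [AddCommGroup M] [DistribMulAction X M]
    (h2 : ∀ m : M, m + m = 0) (s : X) (hs : ∀ m : M, ∑ i ∈ Finset.range 7, s ^ i • m = 0)
    (m : M) (hm : s • m = m) : m = 0 := by
  have h1 : ∀ i : ℕ, s ^ i • m = m := by
    intro i
    induction i with
    | zero => simp
    | succ i ih => rw [pow_succ, mul_smul, hm, ih]
  have h3 := hs m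
  simp only [h1, Finset.sum_const, Finset.card_range] at h3
  have h4 : (7 : ℕ) • m = (m + m) + (m + m) + (m + m) + m := by
    simp only [succ_nsmul, zero_nsmul]; abel
  rw [h4] at h3
  simpa [h2] using h3

end QH42
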