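import Mathlib

/-!
# AUT project, block G3: generation of `GL_n(A)` for a local `F_2`-algebra `A`

`A` is a commutative `F_2`-algebra with a homomorphism `eps : A → F_2` whose kernel has square
zero.  If `n` is odd, a subgroup of `GL_n(A)` containing all transvections and all scalars
`1 + a`, `a ∈ ker eps`, is everything.
-/

set_option autoImplicit false

namespace QH42

open Matrix

section

variable {n : Type*} [Fintype n] [DecidableEq n] {A : Type*} [CommRing A] [Algebra (ZMod 2) A]
  (eps : A →+* ZMod 2)

private theorem gen_two (a : A) : a + a = 0 := by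
  have h1 : (algebraMap (ZMod 2) A) (2 : ZMod 2) = 2 := map_ofNat _ 2
  have h0 : (2 : ZMod 2) = 0 := by decide
  have h2 : (2 : A) = 0 := by rw [← h1, h0, map_zero]
  calc a + a = 2 * a := by ring
    _ = 0 := by rw [h2, zero_mul]

private theorem gen_epsalg (c : ZMod 2) : eps (algebraMap (ZMod 2) A c) = c := by
  have : (eps.comp (algebraMap (ZMod 2) A)) = RingHom.id _ := Subsingleton.elim _ _
  exact congrArg (fun f : ZMod 2 →+* ZMod 2 => f c) this

private theorem gen_list (K : Subgroup (Matrix n n A)ˣ)
    (htv : ∀ i j : n, i ≠ j → ∀ a : A, ∃ g ∈ K, (g : Matrix n n A) = transvection i j a)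
    (L : List (TransvectionStruct n (ZMod 2))) :
    ∃ g ∈ K, (g : Matrix n n A).map eps = (L.map TransvectionStruct.toMatrix).prod := by
  induction L with
  | nil =>
    refine ⟨1, K.one_mem, ?_⟩
    ext i j
    simp [Matrix.one_apply, apply_ite]
  | cons t L ih =>
    obtain ⟨g, hg, hgm⟩ := ih
    obtain ⟨h, hh, hhm⟩ := htv t.i t.j t.hij (algebraMap (ZMod 2) A t.c)
    refine ⟨h * g, K.mul_mem hh hg, ?_⟩
    rw [List.map_cons, List.prod_cons, ← hgm, Units.val_mul, Matrix.map_mul, hhm]
    congr 1
    ext i j
    simp only [transvection, Matrix.map_apply, Matrix.add_apply, Matrix.one_apply,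
      Matrix.single_apply, TransvectionStruct.toMatrix, map_add]
    split_ifs <;> simp [gen_epsalg]

/-- Transvections and the scalars `1 + a` generate `GL_n(A)`, `n` odd. -/
theorem gen_top (hsq : ∀ a b : A, eps a = 0 → eps b = 0 → a * b = 0)
    (hodd : Odd (Fintype.card n)) (K : Subgroup (Matrix n n A)ˣ)
    (htv : ∀ i j : n, i ≠ j → ∀ a : A, ∃ g ∈ K, (g : Matrix n n A) = transvection i j a)
    (hsc : ∀ a : A, eps a = 0 → ∃ g ∈ K, (g : Matrix n n A) = 1 + Matrix.scalar n a) :
    K = ⊤ := by
  classical
  have hmul0 : ∀ X Y : Matrix n n A, X.map eps = 0 → Y.map eps = 0 → X * Y = 0 := by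
    intro X Y hX hY
    ext i j
    rw [Matrix.mul_apply, Matrix.zero_apply]
    apply Finset.sum_eq_zero
    intro l _
    apply hsq
    · have := congrFun (congrFun hX i) l
      simpa using this
    · have := congrFun (congrFun hY l) j
      simpa using this
  -- the additive submonoid of all admissible `Y`
  let YY : AddSubmonoid (Matrix n n A) :=
    { carrier := {Y | Y.map eps = 0 ∧ ∃ g ∈ K, (g : Matrix n n A) = 1 + Y}
      add_mem' := by
        rintro X Y ⟨hX, g, hg, hgX⟩ ⟨hY, h, hh, hhY⟩
        refine ⟨by rw [Matrix.map_add _ (map_add eps), hX, hY, add_zero], g * h, K.mul_mem hg hh, ?_⟩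
        rw [Units.val_mul, hgX, hhY, add_mul, mul_add, mul_add, hmul0 X Y hX hY]
        simp only [mul_one, one_mul, add_zero]
        abel
      zero_mem' := ⟨by ext i j; simp, 1, K.one_mem, by simp⟩ }
  have hYY : ∀ Y : Matrix n n A, Y ∈ YY ↔ (Y.map eps = 0 ∧ ∃ g ∈ K, (g : Matrix n n A) = 1 + Y) :=
    fun Y => Iff.rfl
  have hmaps : ∀ (i j : n) (a : A), eps a = 0 → (Matrix.single i j a).map eps = 0 := by
    intro i j a ha
    ext p q
    simp only [Matrix.map_apply, Matrix.single_apply, Matrix.zero_apply]
    split_ifs <;> simp [ha]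
  have hoff : ∀ (i j : n), i ≠ j → ∀ a : A, eps a = 0 → Matrix.single i j a ∈ YY := by
    intro i j hij a ha
    rw [hYY]
    exact ⟨hmaps i j a ha, htv i j hij a⟩
  have hpair : ∀ (i j : n), i ≠ j → ∀ a : A, eps a = 0 →
      Matrix.single i i a + Matrix.single j j a ∈ YY := by
    intro i j hij a ha
    have h1 : Matrix.single i j a + Matrix.single j j a + Matrix.single i i a +
        Matrix.single j i a ∈ YY := by
      rw [hYY]
      constructor
      · rw [Matrix.map_add _ (map_add eps), Matrix.map_add _ (map_add eps),
          Matrix.map_add _ (map_add eps), hmaps _ _ _ ha, hmaps _ _ _ ha, hmaps _ _ _ ha,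
          hmaps _ _ _ ha]
        simp
      · obtain ⟨g, hg, hgm⟩ := htv j i hij.symm 1
        obtain ⟨h, hh, hhm⟩ := htv i j hij a
        refine ⟨g * h * g, K.mul_mem (K.mul_mem hg hh) hg, ?_⟩
        rw [Units.val_mul, Units.val_mul, hgm, hhm]
        simp only [transvection, add_mul, mul_add, one_mul, mul_one,
          Matrix.single_mul_single_same, Matrix.single_mul_single_of_ne _ _ _ _ hij, add_zero]
        have h2 : (Matrix.single j i (1 : A)) + Matrix.single j i 1 = 0 := by
          rw [← Matrix.single_add, gen_two, Matrix.single_zero]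
        have h3 : (1 : Matrix n n A) + Matrix.single j i 1 + (Matrix.single i j a +
            Matrix.single j j a) + (Matrix.single j i 1 + (Matrix.single i i a +
            Matrix.single j i a)) = 1 + (Matrix.single i j a + Matrix.single j j a +
            Matrix.single i i a + Matrix.single j i a) + (Matrix.single j i 1 +
            Matrix.single j i 1) := by abel
        rw [h3, h2, add_zero]
    have h4 : ∀ i' j' : n, Matrix.single i' j' a + Matrix.single i' j' a = 0 := by
      intro i' j'
      rw [← Matrix.single_add, gen_two, Matrix.single_zero]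
    have h5 := YY.add_mem (YY.add_mem h1 (hoff i j hij a ha)) (hoff j i hij.symm a ha)
    have h6 : Matrix.single i j a + Matrix.single j j a + Matrix.single i i a +
        Matrix.single j i a + Matrix.single i j a + Matrix.single j i a =
        Matrix.single i i a + Matrix.single j j a := by
      have : Matrix.single i j a + Matrix.single j j a + Matrix.single i i a +
        Matrix.single j i a + Matrix.single i j a + Matrix.single j i a =
        Matrix.single i i a + Matrix.single j j a + (Matrix.single i j a + Matrix.single i j a) +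
        (Matrix.single j i a + Matrix.single j i a) := by abel
      rw [this, h4, h4, add_zero, add_zero]
    rw [h6] at h5
    exact h5
  have hdiag : ∀ (i : n) (a : A), eps a = 0 → Matrix.single i i a ∈ YY := by
    intro i a ha
    have h1 : Matrix.scalar n a ∈ YY := by
      rw [hYY]
      refine ⟨?_, hsc a ha⟩
      ext p q
      simp only [Matrix.scalar_apply, Matrix.map_apply, Matrix.diagonal_apply, Matrix.zero_apply]
      split_ifs <;> simp [ha]
    have h2 : ∑ j ∈ Finset.univ.erase i, (Matrix.single i i a + Matrix.single j j a) ∈ YY := by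
      apply YY.sum_mem
      intro j hj
      exact hpair i j (Finset.ne_of_mem_erase hj).symm a ha
    have h3 : Matrix.scalar n a = Matrix.single i i a +
        ∑ j ∈ Finset.univ.erase i, Matrix.single j j a := by
      have h4 : Matrix.scalar n a = ∑ j : n, Matrix.single j j a := by
        ext p q
        rw [Matrix.sum_apply]
        simp only [Matrix.scalar_apply, Matrix.diagonal_apply, Matrix.single_apply]
        by_cases hpq : p = q
        · subst hpq
          simp
        · rw [if_neg hpq]
          symm
          apply Finset.sum_eq_zero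
          intro j _
          rw [if_neg]
          rintro ⟨h5, h6⟩
          exact hpq (h5.symm.trans h6)
      rw [h4]
      exact (Finset.add_sum_erase Finset.univ _ (Finset.mem_univ i)).symm
    have h5 := YY.add_mem h1 h2
    have hcard : Even (Finset.univ.erase i).card := by
      rw [Finset.card_erase_of_mem (Finset.mem_univ i), Finset.card_univ]
      obtain ⟨r, hr⟩ := hodd
      exact ⟨r, by omega⟩
    have h6 : Matrix.scalar n a + ∑ j ∈ Finset.univ.erase i,
        (Matrix.single i i a + Matrix.single j j a) = Matrix.single i i a := by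
      rw [Finset.sum_add_distrib, h3, Finset.sum_const]
      obtain ⟨r, hr⟩ := hcard
      rw [hr, ← two_mul, mul_nsmul, two_nsmul]
      have h7 : ∀ X : Matrix n n A, X + X = 0 := by
        intro X
        ext p q
        simp [gen_two]
      rw [h7, nsmul_zero, zero_add, add_assoc, h7, add_zero]
    rw [h6] at h5
    exact h5
  have hall : ∀ Y : Matrix n n A, Y.map eps = 0 → Y ∈ YY := by
    intro Y hY
    rw [Matrix.matrix_eq_sum_single Y]
    apply YY.sum_mem
    intro i _
    apply YY.sum_mem
    intro j _
    have h0 : eps (Y i j) = 0 := by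
      have := congrFun (congrFun hY i) j
      simpa using this
    by_cases hij : i = j
    · subst hij
      exact hdiag i _ h0
    · exact hoff i j hij _ h0
  rw [eq_top_iff]
  intro g _
  obtain ⟨L, L', D, hD⟩ := Pivot.exists_list_transvec_mul_diagonal_mul_list_transvec
    ((g : Matrix n n A).map eps)
  have hdet : IsUnit ((g : Matrix n n A).map eps) := by
    have := g.isUnit.map (eps.mapMatrix : Matrix n n A →+* Matrix n n (ZMod 2))
    exact this
  have hD1 : diagonal D = 1 := by
    have h1 : IsUnit (diagonal D) := by
      rw [Matrix.isUnit_iff_isUnit_det] at hdet ⊢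
      rw [hD, det_mul, det_mul, TransvectionStruct.det_toMatrix_prod,
        TransvectionStruct.det_toMatrix_prod, one_mul, mul_one] at hdet
      exact hdet
    rw [Matrix.isUnit_iff_isUnit_det, det_diagonal, isUnit_iff_ne_zero,
      Finset.prod_ne_zero_iff] at h1
    have h2 : ∀ x : ZMod 2, x ≠ 0 → x = 1 := by decide
    have h3 : D = fun _ => 1 := funext fun i => h2 _ (h1 i (Finset.mem_univ i))
    rw [h3]
    exact diagonal_one
  rw [hD1, mul_one, ← List.prod_append, ← List.map_append] at hD
  obtain ⟨h, hh, hhm⟩ := gen_list eps K htv (L ++ L')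
  have hw : ((h⁻¹ * g : (Matrix n n A)ˣ) : Matrix n n A).map eps = 1 := by
    have h1 : ((h * (h⁻¹ * g) : (Matrix n n A)ˣ) : Matrix n n A).map eps =
        ((g : (Matrix n n A)ˣ) : Matrix n n A).map eps := by
      rw [mul_inv_cancel_left]
    rw [Units.val_mul, Matrix.map_mul, hhm, ← hD] at h1
    have h2 := hdet.mul_left_cancel (h1.trans (mul_one _).symm)
    exact h2
  have hY := hall (((h⁻¹ * g : (Matrix n n A)ˣ) : Matrix n n A) - 1) (by
    rw [Matrix.map_sub _ (map_sub eps), hw, Matrix.map_one eps (map_zero eps) (map_one eps),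
      sub_self])
  obtain ⟨_, k, hk, hkm⟩ := (hYY _).mp hY
  have hkg : k = h⁻¹ * g := by
    apply Units.ext
    rw [hkm]
    abel
  have : g = h * k := by rw [hkg, mul_inv_cancel_left]
  rw [this]
  exact K.mul_mem hh hk

end

end QH42
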