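import Mathlib

/-!
# AUT project, block G3: the torus elements of order seven in `GL_15(F_2)`

`TU c`, `c : Fin 5 → Fin 3`, is the block diagonal matrix with blocks `om ^ (2 ^ c i)` of size
three, where `om` has order seven.
-/

set_option autoImplicit false

namespace QH42

open Matrix

/-- Companion matrix of `x^3 + x + 1`. -/
def om : Matrix (Fin 3) (Fin 3) (ZMod 2) := !![0, 0, 1; 1, 0, 1; 0, 1, 0]

theorem om_pow7 : om ^ 7 = 1 := by
  decide +kernel

theorem om_sum (c : Fin 3) : ∑ i ∈ Finset.range 7, (om ^ (2 ^ (c : ℕ))) ^ i = 0 := by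
  revert c
  decide +kernel

/-- the projection onto the matrices `x` with `om ^ (2 ^ c) x = x om`. -/
def xx (c : Fin 3) (x : Matrix (Fin 3) (Fin 3) (ZMod 2)) : Matrix (Fin 3) (Fin 3) (ZMod 2) :=
  ∑ t ∈ Finset.range 7, (om ^ (2 ^ (c : ℕ))) ^ (6 * t) * x * om ^ t

theorem xx_comm (c p q : Fin 3) :
    om ^ (2 ^ (c : ℕ)) * xx c (Matrix.of (fun i j => if i = p ∧ j = q then 1 else 0)) =
      xx c (Matrix.of (fun i j => if i = p ∧ j = q then 1 else 0)) * om := by
  revert c p q
  decide +kernel

theorem xx_sum (p q : Fin 3) :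
    xx 0 (Matrix.of (fun i j => if i = p ∧ j = q then 1 else 0)) +
      xx 1 (Matrix.of (fun i j => if i = p ∧ j = q then 1 else 0)) +
      xx 2 (Matrix.of (fun i j => if i = p ∧ j = q then 1 else 0)) =
      Matrix.of (fun i j => if i = p ∧ j = q then 1 else 0) := by
  revert p q
  decide +kernel

end QH42
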