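import Mathlib
import Pool.Agent.Helper42.QH.Torus
import Pool.Agent.Helper42.QH.Gen

/-!
# AUT project, block G3: the centralisers of the torus elements generate `GL_15(A)`
-/

set_option autoImplicit false

namespace QH42

open Matrix

/-- `5 × 5` matrices of `3 × 3` matrices are `15 × 15` matrices. -/
def Phi (A : Type*) [CommRing A] :
    Matrix (Fin 5) (Fin 5) (Matrix (Fin 3) (Fin 3) A) ≃+* Matrix (Fin 15) (Fin 15) A :=
  (Matrix.compRingEquiv (Fin 5) (Fin 3) A).trans
    (Matrix.reindexRingEquiv A (finProdFinEquiv : Fin 5 × Fin 3 ≃ Fin (5 * 3)))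

theorem Phi_single (A : Type*) [CommRing A] (i j : Fin 5) (p q : Fin 3) (a : A) :
    Phi A (Matrix.single i j (Matrix.single p q a)) =
      Matrix.single (finProdFinEquiv (i, p) : Fin (5 * 3)) (finProdFinEquiv (j, q) : Fin (5 * 3)) a := by
  simp only [Phi, RingEquiv.trans_apply, Matrix.compRingEquiv_apply, Matrix.comp_single_single]
  ext x y
  simp [Matrix.reindexRingEquiv, Matrix.single_apply, Equiv.eq_symm_apply]

theorem Phi_map {A B : Type*} [CommRing A] [CommRing B] (f : A →+* B)
    (X : Matrix (Fin 5) (Fin 5) (Matrix (Fin 3) (Fin 3) A)) :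
    (Phi A X).map f = Phi B (X.map (fun Y => Y.map f)) := by
  ext x y
  rfl

/-- the block diagonal matrix with blocks `om ^ (2 ^ c i)`. -/
def TM (c : Fin 5 → Fin 3) : Matrix (Fin 15) (Fin 15) (ZMod 2) :=
  Phi (ZMod 2) (Matrix.diagonal (fun i => om ^ (2 ^ (c i : ℕ))))

theorem TM_pow7 (c : Fin 5 → Fin 3) : TM c ^ 7 = 1 := by
  unfold TM
  rw [← map_pow, Matrix.diagonal_pow, ← map_one (Phi (ZMod 2)), ← Matrix.diagonal_one]
  congr 2
  funext i
  rw [Pi.pow_apply, ← pow_mul, mul_comm, pow_mul, om_pow7, one_pow]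

theorem TM_sum (c : Fin 5 → Fin 3) : ∑ i ∈ Finset.range 7, TM c ^ i = 0 := by
  unfold TM
  simp only [← map_pow, ← map_sum, Matrix.diagonal_pow]
  rw [← map_zero (Phi (ZMod 2))]
  congr 1
  refine Matrix.ext fun i j => ?_
  rw [Matrix.sum_apply]
  by_cases hij : i = j
  · subst hij
    simp only [Matrix.diagonal_apply_eq, Pi.pow_apply, Matrix.zero_apply]
    exact om_sum (c i)
  · simp only [Matrix.diagonal_apply_ne _ hij, Finset.sum_const_zero, Matrix.zero_apply]

/-- the torus elements as units. -/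
def TU (c : Fin 5 → Fin 3) : (Matrix (Fin 15) (Fin 15) (ZMod 2))ˣ :=
  Units.ofPowEqOne (TM c) 7 (TM_pow7 c) (by norm_num)

@[simp] theorem TU_val (c : Fin 5 → Fin 3) :
    (TU c : Matrix (Fin 15) (Fin 15) (ZMod 2)) = TM c := rfl

theorem TU_comm (c c' : Fin 5 → Fin 3) : TU c * TU c' = TU c' * TU c := by
  apply Units.ext
  rw [Units.val_mul, Units.val_mul, TU_val, TU_val]
  unfold TM
  rw [← map_mul, ← map_mul, Matrix.diagonal_mul_diagonal, Matrix.diagonal_mul_diagonal]
  congr 2
  funext i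
  rw [← pow_add, ← pow_add, add_comm]

/-- the torus elements over an `F_2`-algebra. -/
def TA (A : Type*) [CommRing A] [Algebra (ZMod 2) A] (c : Fin 5 → Fin 3) :
    (Matrix (Fin 15) (Fin 15) A)ˣ :=
  Units.map ((algebraMap (ZMod 2) A).mapMatrix : Matrix (Fin 15) (Fin 15) (ZMod 2) →+*
    Matrix (Fin 15) (Fin 15) A).toMonoidHom (TU c)

theorem TA_val (A : Type*) [CommRing A] [Algebra (ZMod 2) A] (c : Fin 5 → Fin 3) :
    (TA A c : Matrix (Fin 15) (Fin 15) A) = (TM c).map (algebraMap (ZMod 2) A) := rfl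

section

variable {A : Type*} [CommRing A] [Algebra (ZMod 2) A]

private theorem tg_two (a : A) : a + a = 0 := by
  have h1 : (algebraMap (ZMod 2) A) (2 : ZMod 2) = 2 := map_ofNat _ 2
  have h0 : (2 : ZMod 2) = 0 := by decide
  have h2 : (2 : A) = 0 := by rw [← h1, h0, map_zero]
  calc a + a = 2 * a := by ring
    _ = 0 := by rw [h2, zero_mul]

/-- the unit `1 + Phi (single i j y)`, `i ≠ j`. -/
private def eu (i j : Fin 5) (hij : i ≠ j) (y : Matrix (Fin 3) (Fin 3) A) :
    (Matrix (Fin 15) (Fin 15) A)ˣ where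
  val := 1 + Phi A (Matrix.single i j y)
  inv := 1 - Phi A (Matrix.single i j y)
  val_inv := by
    have h : Phi A (Matrix.single i j y) * Phi A (Matrix.single i j y) = 0 := by
      rw [← map_mul, Matrix.single_mul_single_of_ne _ _ _ _ hij.symm, map_zero]
    rw [show (1 + Phi A (Matrix.single i j y)) * (1 - Phi A (Matrix.single i j y)) =
      1 - Phi A (Matrix.single i j y) * Phi A (Matrix.single i j y) by noncomm_ring, h, sub_zero]
  inv_val := by
    have h : Phi A (Matrix.single i j y) * Phi A (Matrix.single i j y) = 0 := by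
      rw [← map_mul, Matrix.single_mul_single_of_ne _ _ _ _ hij.symm, map_zero]
    rw [show (1 - Phi A (Matrix.single i j y)) * (1 + Phi A (Matrix.single i j y)) =
      1 - Phi A (Matrix.single i j y) * Phi A (Matrix.single i j y) by noncomm_ring, h, sub_zero]

private theorem eu_add (i j : Fin 5) (hij : i ≠ j) (y z : Matrix (Fin 3) (Fin 3) A) :
    eu i j hij (y + z) = eu i j hij y * eu i j hij z := by
  apply Units.ext
  change 1 + Phi A (Matrix.single i j (y + z)) =
    (1 + Phi A (Matrix.single i j y)) * (1 + Phi A (Matrix.single i j z))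
  have h : Phi A (Matrix.single i j y) * Phi A (Matrix.single i j z) = 0 := by
    rw [← map_mul, Matrix.single_mul_single_of_ne _ _ _ _ hij.symm, map_zero]
  rw [Matrix.single_add, map_add, mul_add, add_mul, add_mul, h]
  simp only [mul_one, one_mul, add_zero]
  abel

/-- the subgroup generated by the centralisers of the torus elements -/
private def KK (A : Type*) [CommRing A] [Algebra (ZMod 2) A] :
    Subgroup (Matrix (Fin 15) (Fin 15) A)ˣ :=
  Subgroup.closure {g | ∃ c, g * TA A c = TA A c * g}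

private theorem eu_mem_of_comm (i j : Fin 5) (hij : i ≠ j) (d : Fin 3)
    (x : Matrix (Fin 3) (Fin 3) (ZMod 2)) (hx : om ^ (2 ^ (d : ℕ)) * x = x * om) (a : A) :
    eu i j hij (a • x.map (algebraMap (ZMod 2) A)) ∈ KK A := by
  apply Subgroup.subset_closure
  refine ⟨fun l => if l = i then d else 0, ?_⟩
  apply Units.ext
  rw [Units.val_mul, Units.val_mul, TA_val]
  change (1 + Phi A (Matrix.single i j (a • x.map (algebraMap (ZMod 2) A)))) * _ =
    _ * (1 + Phi A (Matrix.single i j (a • x.map (algebraMap (ZMod 2) A))))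
  rw [add_mul, mul_add, one_mul, mul_one]
  congr 1
  unfold TM
  rw [Phi_map, ← map_mul, ← map_mul]
  congr 1
  have hmap : ∀ m : ℕ, (om ^ m).map (algebraMap (ZMod 2) A) =
      (om.map (algebraMap (ZMod 2) A)) ^ m := by
    intro m
    exact map_pow (algebraMap (ZMod 2) A).mapMatrix om m
  have hx' : (om ^ (2 ^ (d : ℕ))).map (algebraMap (ZMod 2) A) * x.map (algebraMap (ZMod 2) A) =
      x.map (algebraMap (ZMod 2) A) * om.map (algebraMap (ZMod 2) A) := by
    rw [← Matrix.map_mul, hx, Matrix.map_mul]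
  rw [Matrix.diagonal_map (by ext p q; simp)]
  ext p q : 2
  rw [Matrix.mul_diagonal, Matrix.diagonal_mul]
  by_cases hp : i = p ∧ j = q
  · obtain ⟨rfl, rfl⟩ := hp
    rw [Matrix.single_apply_same]
    simp only [if_true, if_neg hij.symm, Fin.val_zero, pow_zero, pow_one]
    rw [Matrix.mul_smul, Matrix.smul_mul, hx']
  · rw [Matrix.single_apply, if_neg hp, zero_mul, mul_zero]

private theorem eu_single_mem (i j : Fin 5) (hij : i ≠ j) (p q : Fin 3) (a : A) :
    eu i j hij (Matrix.single p q a) ∈ KK A := by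
  set x : Matrix (Fin 3) (Fin 3) (ZMod 2) :=
    Matrix.of (fun i j => if i = p ∧ j = q then 1 else 0) with hx
  have h1 : Matrix.single p q a =
      a • (xx 0 x).map (algebraMap (ZMod 2) A) + a • (xx 1 x).map (algebraMap (ZMod 2) A) +
        a • (xx 2 x).map (algebraMap (ZMod 2) A) := by
    rw [← smul_add, ← smul_add, ← Matrix.map_add _ (map_add _), ← Matrix.map_add _ (map_add _),
      hx, xx_sum]
    ext r s
    simp only [Matrix.single_apply, Matrix.smul_apply, Matrix.map_apply, Matrix.of_apply,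
      smul_eq_mul]
    by_cases h : r = p ∧ s = q
    · rw [if_pos h, if_pos ⟨h.1.symm, h.2.symm⟩, map_one, mul_one]
    · rw [if_neg h, if_neg (fun h' => h ⟨h'.1.symm, h'.2.symm⟩), map_zero, mul_zero]
  rw [h1, eu_add, eu_add]
  exact (KK A).mul_mem ((KK A).mul_mem
    (eu_mem_of_comm i j hij 0 _ (xx_comm 0 p q) a)
    (eu_mem_of_comm i j hij 1 _ (xx_comm 1 p q) a))
    (eu_mem_of_comm i j hij 2 _ (xx_comm 2 p q) a)

private theorem tv_mem_of_ne (i j : Fin 5) (hij : i ≠ j) (p q : Fin 3) (a : A) :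
    ∃ g ∈ KK A, (g : Matrix (Fin 15) (Fin 15) A) =
      transvection (finProdFinEquiv (i, p) : Fin (5 * 3)) (finProdFinEquiv (j, q) : Fin (5 * 3)) a := by
  refine ⟨_, eu_single_mem i j hij p q a, ?_⟩
  change 1 + Phi A (Matrix.single i j (Matrix.single p q a)) = _
  rw [Phi_single]
  rfl

private theorem tv_mem (x y : Fin 15) (hxy : x ≠ y) (a : A) :
    ∃ g ∈ KK A, (g : Matrix (Fin 15) (Fin 15) A) = transvection x y a := by
  obtain ⟨⟨i, p⟩, rfl⟩ := (finProdFinEquiv : Fin 5 × Fin 3 ≃ Fin (5 * 3)).surjective x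
  obtain ⟨⟨j, q⟩, rfl⟩ := (finProdFinEquiv : Fin 5 × Fin 3 ≃ Fin (5 * 3)).surjective y
  by_cases hij : i = j
  · subst hij
    obtain ⟨r, hr⟩ : ∃ r : Fin 5, i ≠ r := by
      by_cases h : i = 0
      · exact ⟨1, by rw [h]; decide⟩
      · exact ⟨0, h⟩
    obtain ⟨g, hg, hgm⟩ := tv_mem_of_ne i r hr p 0 a
    obtain ⟨h, hh, hhm⟩ := tv_mem_of_ne r i hr.symm 0 q (1 : A)
    refine ⟨g * h * g * h, (KK A).mul_mem ((KK A).mul_mem ((KK A).mul_mem hg hh) hg) hh, ?_⟩
    rw [Units.val_mul, Units.val_mul, Units.val_mul, hgm, hhm]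
    set x : Fin (5 * 3) := finProdFinEquiv (i, p)
    set y : Fin (5 * 3) := finProdFinEquiv (i, q)
    set z : Fin (5 * 3) := finProdFinEquiv (r, (0 : Fin 3)) with hz
    have hxz : x ≠ z := by
      intro h
      have := (finProdFinEquiv : Fin 5 × Fin 3 ≃ Fin (5 * 3)).injective h
      exact hr (congrArg Prod.fst this)
    have hyz : y ≠ z := by
      intro h
      have := (finProdFinEquiv : Fin 5 × Fin 3 ≃ Fin (5 * 3)).injective h
      exact hr (congrArg Prod.fst this)
    have h4 : ∀ (i' j' : Fin (5 * 3)) (b : A),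
        Matrix.single i' j' b + Matrix.single i' j' b = 0 := by
      intro i' j' b
      rw [← Matrix.single_add, tg_two, Matrix.single_zero]
    have e1 : (Matrix.single x z a : Matrix (Fin (5 * 3)) (Fin (5 * 3)) A) * Matrix.single x z a = 0 :=
      Matrix.single_mul_single_of_ne _ _ _ _ hxz.symm _
    have e2 : (Matrix.single z y (1 : A) : Matrix (Fin (5 * 3)) (Fin (5 * 3)) A) *
        Matrix.single z y 1 = 0 :=
      Matrix.single_mul_single_of_ne _ _ _ _ hyz _
    have e3 : (Matrix.single x z a : Matrix (Fin (5 * 3)) (Fin (5 * 3)) A) *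
        Matrix.single z y 1 = Matrix.single x y a := by
      rw [Matrix.single_mul_single_same, mul_one]
    have e4 : (Matrix.single z y (1 : A) : Matrix (Fin (5 * 3)) (Fin (5 * 3)) A) *
        Matrix.single x z a = 0 :=
      Matrix.single_mul_single_of_ne _ _ _ _ hxy.symm _
    have key : ∀ X Y Z : Matrix (Fin (5 * 3)) (Fin (5 * 3)) A, X * X = 0 → Y * Y = 0 → X * Y = Z →
        Y * X = 0 → X + X = 0 → Y + Y = 0 →
        (1 + X) * (1 + Y) * (1 + X) * (1 + Y) = 1 + Z + (Z + Z) * 0 := by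
      intro X Y Z hXX hYY hXY hYX hX hY
      have hXZ : X * Z = 0 := by rw [← hXY, ← mul_assoc, hXX, zero_mul]
      have hZX : Z * X = 0 := by rw [← hXY, mul_assoc, hYX, mul_zero]
      have hZY : Z * Y = 0 := by rw [← hXY, mul_assoc, hYY, mul_zero]
      have h1 : (1 + X) * (1 + Y) = 1 + X + Y + Z := by
        rw [add_mul, mul_add, mul_add, hXY]
        simp only [mul_one, one_mul]
        abel
      have h2 : (1 + X + Y + Z) * (1 + X) = 1 + Y + Z := by
        rw [mul_add, mul_one, add_mul, add_mul, add_mul, one_mul, hXX, hYX, hZX]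
        simp only [add_zero]
        have : 1 + X + Y + Z + X = 1 + Y + Z + (X + X) := by abel
        rw [this, hX, add_zero]
      have h3 : (1 + Y + Z) * (1 + Y) = 1 + Z := by
        rw [mul_add, mul_one, add_mul, add_mul, one_mul, hYY, hZY]
        simp only [add_zero]
        have : 1 + Y + Z + Y = 1 + Z + (Y + Y) := by abel
        rw [this, hY, add_zero]
      rw [h1, h2, h3, mul_zero, add_zero]
    have := key _ _ _ e1 e2 e3 e4 (h4 _ _ _) (h4 _ _ _)
    rw [mul_zero, add_zero] at this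
    exact this
  · exact tv_mem_of_ne i j hij p q a

/-- **The centralisers of the torus elements generate `GL_15(A)`.** -/
theorem closure_centralizers (eps : A →+* ZMod 2)
    (hsq : ∀ a b : A, eps a = 0 → eps b = 0 → a * b = 0) :
    Subgroup.closure {g : (Matrix (Fin 15) (Fin 15) A)ˣ | ∃ c, g * TA A c = TA A c * g} = ⊤ := by
  apply gen_top eps hsq (by rw [Fintype.card_fin]; decide) _ tv_mem
  intro a ha
  have h0 : a * a = 0 := hsq a a ha ha
  have h1 : (1 + Matrix.scalar (Fin 15) a) * (1 - Matrix.scalar (Fin 15) a) = 1 := by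
    rw [← map_one (Matrix.scalar (Fin 15)), ← map_add, ← map_sub, ← map_mul]
    congr 1
    linear_combination -h0
  have h2 : (1 - Matrix.scalar (Fin 15) a) * (1 + Matrix.scalar (Fin 15) a) = 1 := by
    rw [← map_one (Matrix.scalar (Fin 15)), ← map_add, ← map_sub, ← map_mul]
    congr 1
    linear_combination -h0
  refine ⟨⟨_, _, h1, h2⟩, ?_, rfl⟩
  apply Subgroup.subset_closure
  refine ⟨0, ?_⟩
  apply Units.ext
  rw [Units.val_mul, Units.val_mul]
  change (1 + Matrix.scalar (Fin 15) a) * _ = _ * (1 + Matrix.scalar (Fin 15) a)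
  rw [add_mul, mul_add, one_mul, mul_one]
  congr 1
  exact (Matrix.scalar_commute a (fun b => mul_comm a b) _)

end

end QH42
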