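import Mathlib
import Pool.Agent.Helper42.QH.Coc
import Pool.Agent.Helper42.QH.TorusGen

/-!
# AUT project, block G3: the t-trick, final form

`X` is a group with a homomorphism `j : GL_15(A) → X` such that `X` is generated by the range
of `j` and the elements commuting with the torus elements `j (TA c)`.  If `1 + t + ... + t^6 = 0`
on the finite module `M` of characteristic two for all torus elements `t = j (TA c)`, every
cocycle of `X` in `M` is a coboundary, and no non-zero vector is fixed by `j (TA c)`.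
-/

set_option autoImplicit false

namespace QH42

open Matrix

/-- the generation statement, transported to `X` -/
theorem closure_centralizers_hom {A : Type*} [CommRing A] [Algebra (ZMod 2) A]
    (eps : A →+* ZMod 2) (hsq : ∀ a b : A, eps a = 0 → eps b = 0 → a * b = 0)
    {X : Type*} [Group X] (j : (Matrix (Fin 15) (Fin 15) A)ˣ →* X)
    (hgen : Subgroup.closure ((j.range : Set X) ∪
      {z | ∀ c, z * j (TA A c) = j (TA A c) * z}) = ⊤) :
    Subgroup.closure {g : X | ∃ s ∈ Set.range (fun c => j (TA A c)), g * s = s * g} = ⊤ := by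
  rw [eq_top_iff, ← hgen, Subgroup.closure_le]
  rintro x (⟨g, rfl⟩ | hx)
  · have hg : g ∈ Subgroup.closure
        {g : (Matrix (Fin 15) (Fin 15) A)ˣ | ∃ c, g * TA A c = TA A c * g} := by
      rw [closure_centralizers eps hsq]
      trivial
    have h1 : j g ∈ (Subgroup.closure
        {g : (Matrix (Fin 15) (Fin 15) A)ˣ | ∃ c, g * TA A c = TA A c * g}).map j :=
      Subgroup.mem_map_of_mem j hg
    rw [MonoidHom.map_closure] at h1
    refine Subgroup.closure_mono ?_ h1
    rintro _ ⟨g', ⟨c, hc⟩, rfl⟩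
    refine ⟨j (TA A c), ⟨c, rfl⟩, ?_⟩
    rw [← map_mul, hc, map_mul]
  · exact Subgroup.subset_closure ⟨j (TA A 0), ⟨0, rfl⟩, hx 0⟩

/-- **The t-trick.** -/
theorem ttrick {A : Type*} [CommRing A] [Algebra (ZMod 2) A]
    (eps : A →+* ZMod 2) (hsq : ∀ a b : A, eps a = 0 → eps b = 0 → a * b = 0)
    {X M : Type*} [Group X] [AddCommGroup M] [DistribMulAction X M] [Finite M]
    (h2 : ∀ m : M, m + m = 0) (j : (Matrix (Fin 15) (Fin 15) A)ˣ →* X)
    (hgen : Subgroup.closure ((j.range : Set X) ∪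
      {z | ∀ c, z * j (TA A c) = j (TA A c) * z}) = ⊤)
    (hsum : ∀ c, ∀ m : M, ∑ i ∈ Finset.range 7, j (TA A c) ^ i • m = 0)
    (f : X → M) (hf : ∀ g h, f (g * h) = f g + g • f h) :
    ∃ m : M, ∀ g, f g = g • m - m := by
  refine cocycle_coboundary (Set.range (fun c => j (TA A c))) ⟨_, 0, rfl⟩ ?_ ?_
    (closure_centralizers_hom eps hsq j hgen) f hf
  · rintro _ ⟨c, rfl⟩ m hm
    exact fixfree_of_sum h2 _ (hsum c) m hm
  · rintro _ ⟨c, rfl⟩ _ ⟨c', rfl⟩
    change j (TA A c) * j (TA A c') = j (TA A c') * j (TA A c)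
    rw [← map_mul, ← map_mul]
    congr 1
    unfold TA
    rw [← map_mul, ← map_mul, TU_comm]

/-- The sum of the first seven powers of a torus element over `A` is zero. -/
theorem TA_sum (A : Type*) [CommRing A] [Algebra (ZMod 2) A] (c : Fin 5 → Fin 3) :
    ∑ i ∈ Finset.range 7, (TA A c : Matrix (Fin 15) (Fin 15) A) ^ i = 0 := by
  rw [TA_val]
  have h : ∀ i : ℕ, ((TM c).map (algebraMap (ZMod 2) A)) ^ i =
      (algebraMap (ZMod 2) A).mapMatrix (TM c ^ i) := by
    intro i
    rw [map_pow]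
    rfl
  simp only [h]
  rw [← map_sum, TM_sum, map_zero]

/-- The same for the inverse. -/
theorem TA_inv_sum (A : Type*) [CommRing A] [Algebra (ZMod 2) A] (c : Fin 5 → Fin 3) :
    ∑ i ∈ Finset.range 7, ((TA A c)⁻¹.val : Matrix (Fin 15) (Fin 15) A) ^ i = 0 := by
  have h7 : TA A c ^ 7 = 1 := by
    unfold TA
    rw [← map_pow]
    have : TU c ^ 7 = 1 := by
      apply Units.ext
      rw [Units.val_pow_eq_pow_val, TU_val, TM_pow7]
      rfl
    rw [this, map_one]
  have h6 : (TA A c : Matrix (Fin 15) (Fin 15) A) ^ 7 = 1 := by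
    rw [← Units.val_pow_eq_pow_val, h7]; rfl
  -- `t^-i = t^(6 i)`
  have h1 : (TA A c)⁻¹ = TA A c ^ 6 := by
    rw [inv_eq_iff_mul_eq_one, ← pow_succ']
    exact h7
  rw [h1]
  have h8 : ∑ i ∈ Finset.range 7, ((TA A c ^ 6 : (Matrix (Fin 15) (Fin 15) A)ˣ).val) ^ i =
      ∑ i ∈ Finset.range 7, (TA A c : Matrix (Fin 15) (Fin 15) A) ^ i := by
    set t : Matrix (Fin 15) (Fin 15) A := (TA A c : Matrix (Fin 15) (Fin 15) A) with ht
    have h9 : ∀ i : ℕ, ((TA A c ^ 6 : (Matrix (Fin 15) (Fin 15) A)ˣ).val) ^ i = t ^ (6 * i) := by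
      intro i
      rw [Units.val_pow_eq_pow_val, ← ht, ← pow_mul]
    simp only [h9]
    have e : ∀ q r : ℕ, t ^ (7 * q + r) = t ^ r := by
      intro q r
      rw [pow_add, pow_mul, h6, one_pow, one_mul]
    simp only [Finset.sum_range_succ, Finset.sum_range_zero, zero_add]
    have e1 : t ^ (6 * 2) = t ^ 5 := e 1 5
    have e2 : t ^ (6 * 3) = t ^ 4 := e 2 4
    have e3 : t ^ (6 * 4) = t ^ 3 := e 3 3
    have e4 : t ^ (6 * 5) = t ^ 2 := e 4 2
    have e5 : t ^ (6 * 6) = t ^ 1 := e 5 1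
    rw [e1, e2, e3, e4, e5]
    simp only [mul_zero, mul_one]
    abel
  rw [h8, TA_sum]

end QH42
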