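import Mathlib

/-!
# AUT project, block G6: Skolem-Noether over the local ring `A`

`A` commutative with `eps : A → F_2`, kernel of square zero; `iota : A → P` an injective ring
homomorphism into an arbitrary ring.  A unit of `M_n(P)` normalising `M_n(iota A)` is the product
of an element of `GL_n(A)` and a scalar matrix `p`, `p` a unit of `P` normalising `iota A`.
-/

set_option autoImplicit false

namespace QH42

open Matrix

section

variable {n : Type*} [Fintype n] [DecidableEq n] {A P : Type*} [CommRing A] [Ring P]
  (eps : A →+* ZMod 2) (iota : A →+* P)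

/-- An element of `A` with `eps a ≠ 0` is a unit. -/
theorem isUnit_of_eps (hsq : ∀ a b : A, eps a = 0 → eps b = 0 → a * b = 0) (a : A)
    (ha : eps a ≠ 0) : IsUnit a := by
  have h2 : ∀ x : ZMod 2, x ≠ 0 → x = 1 := by decide
  have h1 := h2 _ ha
  have h3 : eps (a - 1) = 0 := by rw [map_sub, h1, map_one, sub_self]
  have h4 := hsq _ _ h3 h3
  refine IsUnit.of_mul_eq_one (2 - a) ?_
  linear_combination -h4

/-- the embedding `GL_n(A) → GL_n(P)` -/
def GP (n : Type*) [Fintype n] [DecidableEq n] {A P : Type*} [CommRing A] [Ring P]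
    (iota : A →+* P) : (Matrix n n A)ˣ →* (Matrix n n P)ˣ :=
  Units.map (iota.mapMatrix : Matrix n n A →+* Matrix n n P).toMonoidHom

theorem GP_val (g : (Matrix n n A)ˣ) :
    (GP n iota g : Matrix n n P) = (g : Matrix n n A).map iota := rfl

/-- scalar units -/
def SP (n : Type*) [Fintype n] [DecidableEq n] (P : Type*) [Ring P] : Pˣ →* (Matrix n n P)ˣ :=
  Units.map (Matrix.scalar n : P →+* Matrix n n P).toMonoidHom

theorem SP_val (p : Pˣ) : (SP n P p : Matrix n n P) = Matrix.scalar n (p : P) := rfl

/-- **Skolem-Noether.** -/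
theorem skolem_noether [Nonempty n] (hsq : ∀ a b : A, eps a = 0 → eps b = 0 → a * b = 0)
    (hi : Function.Injective iota) (u : (Matrix n n P)ˣ)
    (hu : ∀ m : Matrix n n A, ∃ m' : Matrix n n A,
      (u : Matrix n n P) * m.map iota = m'.map iota * (u : Matrix n n P)) :
    ∃ (g : (Matrix n n A)ˣ) (p : Pˣ), u = GP n iota g * SP n P p ∧
      ∀ a : A, ∃ a' : A, (p : P) * iota a = iota a' * p := by
  classical
  have hmapinj : ∀ X Y : Matrix n n A, X.map iota = Y.map iota → X = Y := by
    intro X Y h
    ext i j
    apply hi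
    exact congrFun (congrFun h i) j
  choose F0 hF0 using hu
  -- uniqueness
  have hF0u : ∀ m m' : Matrix n n A,
      (u : Matrix n n P) * m.map iota = m'.map iota * (u : Matrix n n P) → F0 m = m' := by
    intro m m' h
    apply hmapinj
    have h1 := (hF0 m).symm.trans h
    exact u.isUnit.mul_right_cancel h1
  have hF0mul : ∀ m m' : Matrix n n A, F0 (m * m') = F0 m * F0 m' := by
    intro m m'
    apply hF0u
    rw [Matrix.map_mul, ← mul_assoc, hF0, mul_assoc, hF0, ← mul_assoc, ← Matrix.map_mul]
  have hF0one : F0 1 = 1 := by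
    apply hF0u
    rw [Matrix.map_one iota (map_zero iota) (map_one iota), mul_one, one_mul]
  have hF0add : ∀ m m' : Matrix n n A, F0 (m + m') = F0 m + F0 m' := by
    intro m m'
    apply hF0u
    rw [Matrix.map_add _ (map_add iota), mul_add, hF0, hF0, Matrix.map_add _ (map_add iota), add_mul]
  have hF0zero : F0 0 = 0 := by
    apply hF0u
    rw [Matrix.map_zero iota (map_zero iota), mul_zero, zero_mul]
  set F : n → n → Matrix n n A := fun i j => F0 (Matrix.single i j 1) with hF
  have hFu : ∀ i j, (u : Matrix n n P) * (Matrix.single i j (1 : P)) =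
      (F i j).map iota * (u : Matrix n n P) := by
    intro i j
    have := hF0 (Matrix.single i j 1)
    rw [← this]
    congr 1
    ext a b
    simp only [Matrix.single_apply, Matrix.map_apply]
    split_ifs <;> simp
  have hFmul : ∀ i j l, F i j * F j l = F i l := by
    intro i j l
    simp only [hF]
    rw [← hF0mul, Matrix.single_mul_single_same, one_mul]
  have hFmul0 : ∀ i j j' l, j ≠ j' → F i j * F j' l = 0 := by
    intro i j j' l hj
    simp only [hF]
    rw [← hF0mul, Matrix.single_mul_single_of_ne _ _ _ _ hj, hF0zero]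
  have hF0sum : ∀ (s : Finset n) (f : n → Matrix n n A),
      F0 (∑ i ∈ s, f i) = ∑ i ∈ s, F0 (f i) := by
    intro s f
    induction s using Finset.induction_on with
    | empty => simp [hF0zero]
    | insert a s ha ih => rw [Finset.sum_insert ha, Finset.sum_insert ha, hF0add, ih]
  have hFsum : ∑ i, F i i = 1 := by
    simp only [hF]
    rw [← hF0sum]
    have : (∑ i : n, Matrix.single i i (1 : A)) = 1 := by
      ext a b
      rw [Matrix.sum_apply]
      simp only [Matrix.single_apply, Matrix.one_apply]
      by_cases hab : a = b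
      · subst hab; simp
      · rw [if_neg hab]
        apply Finset.sum_eq_zero
        intro j _
        rw [if_neg]
        rintro ⟨h5, h6⟩
        exact hab (h5.symm.trans h6)
    rw [this, hF0one]
  obtain ⟨i0⟩ := (inferInstance : Nonempty n)
  -- a column of `F i0 i0` which is non-zero modulo the maximal ideal
  obtain ⟨r0, c0, hc0⟩ : ∃ r0 c0, eps (F i0 i0 r0 c0) ≠ 0 := by
    by_contra hcon
    push Not at hcon
    have h1 : (F i0 i0).map eps = 0 := by
      ext r c
      exact hcon r c
    have h2 : (1 : Matrix n n (ZMod 2)) = 0 := by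
      have h3 : (1 : Matrix n n A).map eps = 0 := by
        rw [← hFsum]
        have h4 : ∀ i, (F i i).map eps = 0 := by
          intro i
          rw [← hFmul i i0 i, ← hFmul i i0 i0, Matrix.map_mul, Matrix.map_mul, h1, mul_zero,
            zero_mul]
        ext a b
        rw [Matrix.map_apply, Matrix.sum_apply, map_sum]
        apply Finset.sum_eq_zero
        intro i _
        exact congrFun (congrFun (h4 i) a) b
      rw [← h3, Matrix.map_one eps (map_zero eps) (map_one eps)]
    have h3 := congrFun (congrFun h2 i0) i0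
    simp at h3
  set g : Matrix n n A := Matrix.of (fun r l => F l i0 r c0) with hg
  have hFg : ∀ i j, F i j * g = g * Matrix.single i j 1 := by
    intro i j
    ext r l
    rw [Matrix.mul_apply]
    have h1 : ∑ s, F i j r s * g s l = (F i j * F l i0) r c0 := by
      rw [Matrix.mul_apply]
      rfl
    rw [h1]
    by_cases hjl : j = l
    · subst hjl
      rw [hFmul]
      simp [hg, Matrix.mul_apply, Matrix.single_apply]
    · rw [hFmul0 _ _ _ _ hjl]
      simp [hg, Matrix.mul_apply, hjl]
  have hgdet : IsUnit g.det := by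
    apply isUnit_of_eps eps hsq
    have h1 : eps g.det = (g.map eps).det := by
      rw [RingHom.map_det]; rfl
    rw [h1]
    intro h2
    obtain ⟨v, hv, hgv⟩ := Matrix.exists_mulVec_eq_zero_iff.mpr h2
    apply hv
    funext l'
    -- multiply by `F i0 l'`
    have h3 : ((F i0 l' * g).map eps).mulVec v = 0 := by
      rw [Matrix.map_mul, ← Matrix.mulVec_mulVec, hgv, Matrix.mulVec_zero]
    have h4 := congrFun h3 r0
    rw [hFg] at h4
    simp only [Matrix.mulVec, dotProduct, Matrix.map_apply, Pi.zero_apply] at h4
    have h5 : ∀ x, eps ((g * Matrix.single i0 l' (1 : A) : Matrix n n A) r0 x) * v x =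
        if l' = x then eps (F i0 i0 r0 c0) * v l' else 0 := by
      intro x
      by_cases hx : l' = x
      · subst hx
        simp [hg, Matrix.mul_apply, Matrix.single_apply]
      · simp [Matrix.mul_apply, hx]
    rw [Finset.sum_congr rfl (fun x _ => h5 x)] at h4
    simp only [Finset.sum_ite_eq, Finset.mem_univ, if_true, mul_eq_zero] at h4
    exact h4.resolve_left hc0
  obtain ⟨gu, hgu⟩ := (Matrix.isUnit_iff_isUnit_det g).mpr hgdet
  -- the quotient commutes with the matrix units
  set w : (Matrix n n P)ˣ := (GP n iota gu)⁻¹ * u with hw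
  have huw : u = GP n iota gu * w := by rw [hw, mul_inv_cancel_left]
  have hcomm : ∀ i j, Matrix.single i j (1 : P) * (w : Matrix n n P) =
      (w : Matrix n n P) * Matrix.single i j (1 : P) := by
    intro i j
    have h1 : (F i j).map iota * (GP n iota gu : Matrix n n P) =
        (GP n iota gu : Matrix n n P) * Matrix.single i j (1 : P) := by
      rw [GP_val, hgu, ← Matrix.map_mul, hFg, Matrix.map_mul]
      congr 1
      ext a b
      simp only [Matrix.single_apply, Matrix.map_apply]
      split_ifs <;> simp
    have h2 := hFu i j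
    rw [huw, Units.val_mul, mul_assoc, ← mul_assoc ((F i j).map iota), h1, mul_assoc] at h2
    exact ((GP n iota gu).isUnit.mul_left_cancel h2).symm
  obtain ⟨p, hp⟩ := Matrix.mem_range_scalar_of_commute_single (M := (w : Matrix n n P))
    (fun i j _ => hcomm i j)
  have hcomm' : ∀ i j, Matrix.single i j (1 : P) * ((w⁻¹ : (Matrix n n P)ˣ) : Matrix n n P) =
      ((w⁻¹ : (Matrix n n P)ˣ) : Matrix n n P) * Matrix.single i j (1 : P) := by
    intro i j
    have h1 : Commute (Matrix.single i j (1 : P)) (w : Matrix n n P) := hcomm i j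
    exact h1.units_inv_right
  obtain ⟨q, hq⟩ := Matrix.mem_range_scalar_of_commute_single
    (M := ((w⁻¹ : (Matrix n n P)ˣ) : Matrix n n P)) (fun i j _ => hcomm' i j)
  have hpq : p * q = 1 := by
    have h1 : Matrix.scalar n (p * q) = Matrix.scalar n (1 : P) := by
      rw [map_mul, hp, hq, map_one, Units.mul_inv]
    exact Matrix.scalar_inj.mp h1
  have hqp : q * p = 1 := by
    have h1 : Matrix.scalar n (q * p) = Matrix.scalar n (1 : P) := by
      rw [map_mul, hp, hq, map_one, Units.inv_mul]
    exact Matrix.scalar_inj.mp h1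
  refine ⟨gu, ⟨p, q, hpq, hqp⟩, ?_, ?_⟩
  · rw [huw]
    congr 1
    apply Units.ext
    rw [SP_val]
    exact hp.symm
  · intro a
    refine ⟨((((gu⁻¹ : (Matrix n n A)ˣ) : Matrix n n A)) * F0 (Matrix.single i0 i0 a) * gu) i0 i0, ?_⟩
    have h1 := hF0 (Matrix.single i0 i0 a)
    rw [huw, Units.val_mul, ← hp] at h1
    have h2 : Matrix.scalar n p * (Matrix.single i0 i0 a).map iota =
        ((((gu⁻¹ : (Matrix n n A)ˣ) : Matrix n n A)) * F0 (Matrix.single i0 i0 a) * gu).map iota *
          Matrix.scalar n p := by
      have h3 : ((gu⁻¹ : (Matrix n n A)ˣ) : Matrix n n A).map iota * (GP n iota gu : Matrix n n P) = 1 := by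
        rw [GP_val, ← Matrix.map_mul, Units.inv_mul,
          Matrix.map_one iota (map_zero iota) (map_one iota)]
      calc Matrix.scalar n p * (Matrix.single i0 i0 a).map iota
          = ((gu⁻¹ : (Matrix n n A)ˣ) : Matrix n n A).map iota * ((GP n iota gu : Matrix n n P) *
            Matrix.scalar n p * (Matrix.single i0 i0 a).map iota) := by
              rw [← mul_assoc, ← mul_assoc, h3, one_mul]
        _ = _ := by
              rw [h1, Matrix.map_mul, Matrix.map_mul, GP_val]
              simp only [mul_assoc]
    have h3 := congrFun (congrFun h2 i0) i0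
    rw [Matrix.scalar_apply, Matrix.diagonal_mul, Matrix.mul_diagonal, Matrix.map_apply,
      Matrix.map_apply, Matrix.single_apply_same] at h3
    exact h3

end

end QH42
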