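import Mathlib
import Pool.Agent.Helper42.QH.Gen
import Pool.Agent.Helper42.QH.SN

/-!
# AUT project, block G6: the group `NN`

`A` commutative local with `eps : A → F_2` (kernel of square zero), `iota : A →+* P` injective,
`P` any ring.  `NN n iota` = the units of `M_n(P)` normalising `M_n(iota A)`, `NZ iota` = the
units of `P` normalising `iota A`, `G1 n iota` = the image of `GL_n(A)`.
Results: `NN = G1 · NZ` (`NN_decomp`), `G1` is normalised by `NN` (`conj_GP_mem`), the centraliser
of `G1` (`centralizer_G1`), elements of order `q` (`mem_G1_of_pow`), `NN` is perfect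
(`NN_perfect`), determinants under conjugation (`det_conj`).
-/

set_option autoImplicit false

namespace QH42

open Matrix

section

variable {A P : Type*} [CommRing A] [Ring P] (iota : A →+* P)

/-- units of `P` normalising `iota A` -/
def NZ : Subgroup Pˣ where
  carrier := {p | (∀ a : A, ∃ a' : A, (p : P) * iota a = iota a' * p) ∧
    (∀ a : A, ∃ a' : A, ((p⁻¹ : Pˣ) : P) * iota a = iota a' * ((p⁻¹ : Pˣ) : P))}
  mul_mem' := by
    rintro p q ⟨hp, hp'⟩ ⟨hq, hq'⟩
    constructor
    · intro a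
      obtain ⟨b, hb⟩ := hq a
      obtain ⟨c, hc⟩ := hp b
      exact ⟨c, by rw [Units.val_mul, mul_assoc, hb, ← mul_assoc, hc, mul_assoc]⟩
    · intro a
      obtain ⟨b, hb⟩ := hp' a
      obtain ⟨c, hc⟩ := hq' b
      exact ⟨c, by rw [_root_.mul_inv_rev, Units.val_mul, mul_assoc, hb, ← mul_assoc, hc, mul_assoc]⟩
  one_mem' := by
    constructor
    · intro a; exact ⟨a, by simp⟩
    · intro a; exact ⟨a, by simp⟩
  inv_mem' := by
    rintro p ⟨hp, hp'⟩
    exact ⟨hp', by simpa using hp⟩

variable (n : Type*) [Fintype n] [DecidableEq n]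

/-- units of `M_n(P)` normalising `M_n(iota A)` -/
def NN : Subgroup (Matrix n n P)ˣ where
  carrier := {u | (∀ m : Matrix n n A, ∃ m' : Matrix n n A,
      (u : Matrix n n P) * m.map iota = m'.map iota * (u : Matrix n n P)) ∧
    (∀ m : Matrix n n A, ∃ m' : Matrix n n A,
      ((u⁻¹ : (Matrix n n P)ˣ) : Matrix n n P) * m.map iota =
        m'.map iota * ((u⁻¹ : (Matrix n n P)ˣ) : Matrix n n P))}
  mul_mem' := by
    rintro p q ⟨hp, hp'⟩ ⟨hq, hq'⟩
    constructor
    · intro a
      obtain ⟨b, hb⟩ := hq a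
      obtain ⟨c, hc⟩ := hp b
      exact ⟨c, by rw [Units.val_mul, mul_assoc, hb, ← mul_assoc, hc, mul_assoc]⟩
    · intro a
      obtain ⟨b, hb⟩ := hp' a
      obtain ⟨c, hc⟩ := hq' b
      exact ⟨c, by rw [_root_.mul_inv_rev, Units.val_mul, mul_assoc, hb, ← mul_assoc, hc, mul_assoc]⟩
  one_mem' := by
    constructor
    · intro a; exact ⟨a, by simp⟩
    · intro a; exact ⟨a, by simp⟩
  inv_mem' := by
    rintro p ⟨hp, hp'⟩
    exact ⟨hp', by simpa using hp⟩

/-- For finite `A` one half of the condition is enough. -/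
theorem mem_NN_of [Finite A] (hi : Function.Injective iota) (u : (Matrix n n P)ˣ)
    (hu : ∀ m : Matrix n n A, ∃ m' : Matrix n n A,
      (u : Matrix n n P) * m.map iota = m'.map iota * (u : Matrix n n P)) : u ∈ NN iota n := by
  refine ⟨hu, ?_⟩
  choose f hf using hu
  have hinj : Function.Injective f := by
    intro x y hxy
    have h1 : (u : Matrix n n P) * x.map iota = (u : Matrix n n P) * y.map iota := by
      rw [hf, hf, hxy]
    have h2 := u.isUnit.mul_left_cancel h1
    ext i j
    exact hi (congrFun (congrFun h2 i) j)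
  have : Finite (Matrix n n A) := by unfold Matrix; infer_instance
  have hsurj := Finite.injective_iff_surjective.mp hinj
  intro m
  obtain ⟨m', hm'⟩ := hsurj m
  refine ⟨m', ?_⟩
  have h1 := hf m'
  rw [hm'] at h1
  calc ((u⁻¹ : (Matrix n n P)ˣ) : Matrix n n P) * m.map iota
      = ((u⁻¹ : (Matrix n n P)ˣ) : Matrix n n P) * (m.map iota * (u : Matrix n n P)) *
          ((u⁻¹ : (Matrix n n P)ˣ) : Matrix n n P) := by
        rw [mul_assoc, mul_assoc, Units.mul_inv, mul_one]
    _ = m'.map iota * ((u⁻¹ : (Matrix n n P)ˣ) : Matrix n n P) := by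
        rw [← h1, ← mul_assoc, Units.inv_mul, one_mul]

theorem mem_NZ_of [Finite A] (hi : Function.Injective iota) (p : Pˣ)
    (hp : ∀ a : A, ∃ a' : A, (p : P) * iota a = iota a' * p) : p ∈ NZ iota := by
  refine ⟨hp, ?_⟩
  choose f hf using hp
  have hinj : Function.Injective f := by
    intro x y hxy
    have h1 : (p : P) * iota x = (p : P) * iota y := by rw [hf, hf, hxy]
    exact hi (p.isUnit.mul_left_cancel h1)
  have hsurj := Finite.injective_iff_surjective.mp hinj
  intro a
  obtain ⟨a', ha'⟩ := hsurj a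
  refine ⟨a', ?_⟩
  have h1 := hf a'
  rw [ha'] at h1
  calc ((p⁻¹ : Pˣ) : P) * iota a
      = ((p⁻¹ : Pˣ) : P) * (iota a * p) * ((p⁻¹ : Pˣ) : P) := by
        rw [mul_assoc, mul_assoc, Units.mul_inv, mul_one]
    _ = iota a' * ((p⁻¹ : Pˣ) : P) := by
        rw [← h1, ← mul_assoc, Units.inv_mul, one_mul]

variable {iota} {n}

theorem GP_mem_NN (g : (Matrix n n A)ˣ) : GP n iota g ∈ NN iota n := by
  constructor
  · intro m
    refine ⟨g * m * ((g⁻¹ : (Matrix n n A)ˣ) : Matrix n n A), ?_⟩
    rw [GP_val, ← Matrix.map_mul, ← Matrix.map_mul]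
    congr 1
    rw [mul_assoc, Units.inv_mul, mul_one]
  · intro m
    refine ⟨((g⁻¹ : (Matrix n n A)ˣ) : Matrix n n A) * m * g, ?_⟩
    rw [← map_inv, GP_val, ← Matrix.map_mul, ← Matrix.map_mul]
    congr 1
    rw [mul_assoc, Units.mul_inv, mul_one]

private theorem nn_scalar_map (p : P) (m : Matrix n n A) (f : A → A)
    (hf : ∀ a, p * iota a = iota (f a) * p) :
    Matrix.scalar n p * m.map iota = (m.map f).map iota * Matrix.scalar n p := by
  ext i j
  rw [Matrix.scalar_apply, Matrix.diagonal_mul, Matrix.mul_diagonal, Matrix.map_apply,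
    Matrix.map_apply, Matrix.map_apply, hf]

theorem SP_mem_NN {p : Pˣ} (hp : p ∈ NZ iota) : SP n P p ∈ NN iota n := by
  obtain ⟨h1, h2⟩ := hp
  choose f hf using h1
  choose f' hf' using h2
  constructor
  · intro m
    exact ⟨m.map f, by rw [SP_val]; exact nn_scalar_map _ m f hf⟩
  · intro m
    exact ⟨m.map f', by rw [← map_inv, SP_val]; exact nn_scalar_map _ m f' hf'⟩

/-- `NN = G1 · NZ`. -/
theorem NN_decomp [Nonempty n] (eps : A →+* ZMod 2)
    (hsq : ∀ a b : A, eps a = 0 → eps b = 0 → a * b = 0)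
    (hi : Function.Injective iota) {u : (Matrix n n P)ˣ} (hu : u ∈ NN iota n) :
    ∃ (g : (Matrix n n A)ˣ) (p : Pˣ), u = GP n iota g * SP n P p ∧ p ∈ NZ iota := by
  obtain ⟨g, p, h1, h2⟩ := skolem_noether eps iota hsq hi u hu.1
  refine ⟨g, p, h1, h2, ?_⟩
  -- the same for the inverse
  have h3 : (SP n P p)⁻¹ ∈ NN iota n := by
    have : SP n P p = (GP n iota g)⁻¹ * u := by rw [h1, inv_mul_cancel_left]
    rw [this]
    exact inv_mem (mul_mem (inv_mem (GP_mem_NN g)) hu)
  intro a
  obtain ⟨i0⟩ := (inferInstance : Nonempty n)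
  obtain ⟨m', hm'⟩ := h3.1 (Matrix.single i0 i0 a)
  refine ⟨m' i0 i0, ?_⟩
  rw [← map_inv, SP_val] at hm'
  have h4 := congrFun (congrFun hm' i0) i0
  rw [Matrix.scalar_apply, Matrix.diagonal_mul, Matrix.mul_diagonal, Matrix.map_apply,
    Matrix.map_apply, Matrix.single_apply_same] at h4
  exact h4

/-- The automorphism of `A` induced by an element of `NZ`. -/
theorem exists_sigma (hi : Function.Injective iota) {p : Pˣ} (hp : p ∈ NZ iota) :
    ∃ s : A ≃+* A, ∀ a, (p : P) * iota a = iota (s a) * p := by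
  obtain ⟨h1, h2⟩ := hp
  choose f hf using h1
  choose f' hf' using h2
  have hcan : ∀ a b : A, iota a * (p : P) = iota b * p → a = b := by
    intro a b h
    exact hi (p.isUnit.mul_right_cancel h)
  have hff' : ∀ a, f (f' a) = a := by
    intro a
    apply hcan
    rw [← hf]
    have := hf' a
    calc (p : P) * iota (f' a) = (p : P) * (iota (f' a) * ((p⁻¹ : Pˣ) : P)) * p := by
          rw [mul_assoc, mul_assoc, Units.inv_mul, mul_one]
      _ = iota a * p := by rw [← this, ← mul_assoc, Units.mul_inv, one_mul]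
  have hf'f : ∀ a, f' (f a) = a := by
    intro a
    apply hi
    have h3 := hf' (f a)
    have h4 := hf a
    have h5 : iota (f' (f a)) * ((p⁻¹ : Pˣ) : P) = iota a * ((p⁻¹ : Pˣ) : P) := by
      rw [← h3]
      calc ((p⁻¹ : Pˣ) : P) * iota (f a) =
          ((p⁻¹ : Pˣ) : P) * (iota (f a) * p) * ((p⁻¹ : Pˣ) : P) := by
            rw [mul_assoc, mul_assoc, Units.mul_inv, mul_one]
        _ = iota a * ((p⁻¹ : Pˣ) : P) := by rw [← h4, ← mul_assoc, Units.inv_mul, one_mul]
    exact (p⁻¹).isUnit.mul_right_cancel h5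
  refine ⟨{ toFun := f, invFun := f', left_inv := hf'f, right_inv := hff',
            map_mul' := ?_, map_add' := ?_ }, hf⟩
  · intro a b
    apply hcan
    rw [← hf, map_mul, ← mul_assoc, hf, mul_assoc, hf, ← mul_assoc, ← map_mul]
  · intro a b
    apply hcan
    rw [← hf, map_add, mul_add, hf, hf, ← add_mul, ← map_add]

/-- Conjugation of `GL_n(A)` by an element of `NN`. -/
theorem conj_GP {p : Pˣ} {s : A ≃+* A} (hs : ∀ a, (p : P) * iota a = iota (s a) * p)
    (g h : (Matrix n n A)ˣ) :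
    (GP n iota g * SP n P p) * GP n iota h * (GP n iota g * SP n P p)⁻¹ =
      GP n iota (g * Units.map (s : A →+* A).mapMatrix.toMonoidHom h * g⁻¹) := by
  have h1 : SP n P p * GP n iota h = GP n iota (Units.map (s : A →+* A).mapMatrix.toMonoidHom h) *
      SP n P p := by
    apply Units.ext
    rw [Units.val_mul, Units.val_mul, SP_val, GP_val, GP_val]
    exact nn_scalar_map _ _ s hs
  rw [_root_.mul_inv_rev, mul_assoc, mul_assoc, ← mul_assoc (SP n P p), h1, map_mul, map_mul, map_inv]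
  group

theorem conj_GP_mem [Nonempty n] (eps : A →+* ZMod 2)
    (hsq : ∀ a b : A, eps a = 0 → eps b = 0 → a * b = 0)
    (hi : Function.Injective iota) {u : (Matrix n n P)ˣ} (hu : u ∈ NN iota n)
    {v : (Matrix n n P)ˣ} (hv : v ∈ (GP n iota).range) : u * v * u⁻¹ ∈ (GP n iota).range := by
  obtain ⟨g, p, rfl, hp⟩ := NN_decomp eps hsq hi hu
  obtain ⟨s, hs⟩ := exists_sigma hi hp
  obtain ⟨h, rfl⟩ := hv
  rw [conj_GP hs]
  exact ⟨_, rfl⟩

/-- Determinants under conjugation. -/
theorem det_conj (s : A ≃+* A) (g h : (Matrix n n A)ˣ) :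
    ((g * Units.map (s : A →+* A).mapMatrix.toMonoidHom h * g⁻¹ : (Matrix n n A)ˣ) :
      Matrix n n A).det = s ((h : Matrix n n A).det) := by
  have h1 : (g : Matrix n n A).det * ((g⁻¹ : (Matrix n n A)ˣ) : Matrix n n A).det = 1 := by
    rw [← Matrix.det_mul, Units.mul_inv, Matrix.det_one]
  have h2 : ((Units.map (s : A →+* A).mapMatrix.toMonoidHom h : (Matrix n n A)ˣ) :
      Matrix n n A).det = s ((h : Matrix n n A).det) := by
    have := RingHom.map_det (s : A →+* A) (h : Matrix n n A)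
    exact this.symm
  rw [Units.val_mul, Units.val_mul, Matrix.det_mul, Matrix.det_mul, h2]
  linear_combination (s (h : Matrix n n A).det) * h1

/-- scalar matrices which lie in `G1` come from scalars of `A` -/
theorem SP_mem_range [Nonempty n] (hi : Function.Injective iota) {p : Pˣ}
    (hp : SP n P p ∈ (GP n iota).range) : ∃ a : Aˣ, (p : P) = iota a := by
  obtain ⟨g, hg⟩ := hp
  have h1 : (g : Matrix n n A).map iota = Matrix.scalar n (p : P) := by
    rw [← GP_val, hg, SP_val]
  have h2 : ∀ i j, i ≠ j → (g : Matrix n n A) i j = 0 := by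
    intro i j hij
    apply hi
    have := congrFun (congrFun h1 i) j
    rw [Matrix.map_apply, Matrix.scalar_apply, Matrix.diagonal_apply_ne _ hij] at this
    rw [this, map_zero]
  have h3 : ∀ i, iota ((g : Matrix n n A) i i) = p := by
    intro i
    have := congrFun (congrFun h1 i) i
    rw [Matrix.map_apply, Matrix.scalar_apply, Matrix.diagonal_apply_eq] at this
    exact this
  obtain ⟨i0⟩ := (inferInstance : Nonempty n)
  have h4 : (g : Matrix n n A) = Matrix.diagonal (fun i => (g : Matrix n n A) i i) := by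
    ext i j
    by_cases hij : i = j
    · subst hij; rw [Matrix.diagonal_apply_eq]
    · rw [Matrix.diagonal_apply_ne _ hij, h2 i j hij]
  have h5 : IsUnit ((g : Matrix n n A) i0 i0) := by
    have h6 : IsUnit (g : Matrix n n A).det := (Matrix.isUnit_iff_isUnit_det _).mp g.isUnit
    rw [h4, Matrix.det_diagonal] at h6
    have h7 := isUnit_of_dvd_unit (Finset.dvd_prod_of_mem (fun i => (g : Matrix n n A) i i)
      (Finset.mem_univ i0)) h6
    exact h7
  obtain ⟨a, ha⟩ := h5
  exact ⟨a, by rw [ha, h3]⟩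

/-- Elements of order `q` of `NN` lie in `G1` when `NZ / A^x` has no `q`-torsion. -/
theorem mem_G1_of_pow [Nonempty n] (eps : A →+* ZMod 2)
    (hsq : ∀ a b : A, eps a = 0 → eps b = 0 → a * b = 0)
    (hi : Function.Injective iota) (q : ℕ)
    (hq : ∀ p ∈ NZ iota, (∃ a : Aˣ, ((p ^ q : Pˣ) : P) = iota a) → ∃ a : Aˣ, (p : P) = iota a)
    {u : (Matrix n n P)ˣ} (hu : u ∈ NN iota n) (huq : u ^ q = 1) : u ∈ (GP n iota).range := by
  obtain ⟨g, p, rfl, hp⟩ := NN_decomp eps hsq hi hu
  obtain ⟨s, hs⟩ := exists_sigma hi hp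
  -- modulo `G1`, `u ^ q = SP (p ^ q)`
  have h1 : ∀ k : ℕ, ∃ h : (Matrix n n A)ˣ,
      (GP n iota g * SP n P p) ^ k = GP n iota h * SP n P (p ^ k) := by
    intro k
    induction k with
    | zero => exact ⟨1, by simp⟩
    | succ k ih =>
      obtain ⟨h, hh⟩ := ih
      obtain ⟨s', hs'⟩ := exists_sigma hi ((NZ iota).pow_mem hp k)
      have h2 := conj_GP (n := n) hs' 1 g
      rw [map_one, one_mul] at h2
      refine ⟨h * (1 * Units.map (s' : A →+* A).mapMatrix.toMonoidHom g * 1⁻¹), ?_⟩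
      rw [pow_succ, hh, map_mul, ← h2, pow_succ, map_mul]
      group
  obtain ⟨h, hh⟩ := h1 q
  rw [huq] at hh
  have h3 : SP n P (p ^ q) ∈ (GP n iota).range := by
    refine ⟨h⁻¹, ?_⟩
    rw [map_inv]
    exact (eq_inv_of_mul_eq_one_right hh.symm).symm
  obtain ⟨a, ha⟩ := hq p hp (SP_mem_range hi h3)
  refine (GP n iota).range.mul_mem ⟨g, rfl⟩ ⟨Units.map (Matrix.scalar n : A →+* Matrix n n A).toMonoidHom a, ?_⟩
  apply Units.ext
  rw [GP_val, SP_val, ha]
  change (Matrix.scalar n (a : A)).map iota = _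
  ext i j
  by_cases hij : i = j
  · subst hij
    simp [Matrix.scalar_apply]
  · simp [Matrix.scalar_apply, Matrix.diagonal_apply_ne _ hij]

end

end QH42
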