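import Mathlib
import Pool.Agent.Helper42.QH.NN

/-!
# AUT project, block G6: centralisers in `NN`, and `NN` is perfect
-/

set_option autoImplicit false

namespace QH42

open Matrix
open scoped commutatorElement

section

variable {A P : Type*} [CommRing A] [Ring P] {iota : A →+* P}
variable {n : Type*} [Fintype n] [DecidableEq n]

/-- A unit of `M_n(P)` commuting with a set of matrices additively generating `M_n(iota A)`
is a scalar matrix `p` with `p` commuting with `iota A`. -/
theorem centralizer_of_closure [Nontrivial n] (S : Set (Matrix n n A))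
    (hS : AddSubgroup.closure S = ⊤) (u : (Matrix n n P)ˣ)
    (hu : ∀ m ∈ S, (u : Matrix n n P) * m.map iota = m.map iota * (u : Matrix n n P)) :
    ∃ p : Pˣ, u = SP n P p ∧ ∀ a : A, (p : P) * iota a = iota a * p := by
  have hall : ∀ m : Matrix n n A,
      (u : Matrix n n P) * m.map iota = m.map iota * (u : Matrix n n P) := by
    intro m
    have hm : m ∈ AddSubgroup.closure S := by rw [hS]; trivial
    induction hm using AddSubgroup.closure_induction with
    | mem x hx => exact hu x hx
    | zero => rw [Matrix.map_zero iota (map_zero iota), mul_zero, zero_mul]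
    | add x y _ _ hx hy =>
      rw [Matrix.map_add _ (map_add iota), mul_add, add_mul, hx, hy]
    | neg x _ hx =>
      have : (-x).map iota = -(x.map iota) := by
        ext i j; simp
      rw [this, mul_neg, neg_mul, hx]
  have hs1 : ∀ i j (a : A), (Matrix.single i j a : Matrix n n A).map iota =
      Matrix.single i j (iota a) := by
    intro i j a
    ext x y
    simp only [Matrix.single_apply, Matrix.map_apply]
    split_ifs <;> simp
  have hc : ∀ i j, Commute (Matrix.single i j (1 : P)) (u : Matrix n n P) := by
    intro i j
    have := hall (Matrix.single i j 1)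
    rw [hs1, map_one] at this
    exact this.symm
  obtain ⟨p, hp⟩ := Matrix.mem_range_scalar_of_commute_single (M := (u : Matrix n n P))
    (fun i j _ => hc i j)
  obtain ⟨q, hq⟩ := Matrix.mem_range_scalar_of_commute_single
    (M := ((u⁻¹ : (Matrix n n P)ˣ) : Matrix n n P)) (fun i j _ => (hc i j).units_inv_right)
  obtain ⟨i0⟩ := (inferInstance : Nonempty n)
  have hpq : p * q = 1 := by
    have h1 : Matrix.scalar n (p * q) = Matrix.scalar n (1 : P) := by
      rw [map_mul, hp, hq, map_one, Units.mul_inv]
    exact Matrix.scalar_inj.mp h1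
  have hqp : q * p = 1 := by
    have h1 : Matrix.scalar n (q * p) = Matrix.scalar n (1 : P) := by
      rw [map_mul, hp, hq, map_one, Units.inv_mul]
    exact Matrix.scalar_inj.mp h1
  refine ⟨⟨p, q, hpq, hqp⟩, ?_, ?_⟩
  · apply Units.ext
    rw [SP_val]
    exact hp.symm
  · intro a
    have h1 := hall (Matrix.single i0 i0 a)
    rw [hs1, ← hp] at h1
    have h2 := congrFun (congrFun h1 i0) i0
    rw [Matrix.scalar_apply, Matrix.diagonal_mul, Matrix.mul_diagonal,
      Matrix.single_apply_same] at h2
    exact h2

/-- the unit `1 + a`, `a` in the square-zero kernel of `eps` -/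
def oneAdd (eps : A →+* ZMod 2) (hsq : ∀ a b : A, eps a = 0 → eps b = 0 → a * b = 0)
    (a : A) (ha : eps a = 0) : Aˣ where
  val := 1 + a
  inv := 1 - a
  val_inv := by linear_combination -(hsq a a ha ha)
  inv_val := by linear_combination -(hsq a a ha ha)

/-- scalar matrices -/
def scA (n : Type*) [Fintype n] [DecidableEq n] (A : Type*) [CommRing A] :
    Aˣ →* (Matrix n n A)ˣ :=
  Units.map (Matrix.scalar n : A →+* Matrix n n A).toMonoidHom

theorem SP_iota (a : Aˣ) : SP n P (Units.map (iota : A →* P) a) = GP n iota (scA n A a) := by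
  apply Units.ext
  rw [GP_val, SP_val]
  change _ = (Matrix.scalar n (a : A)).map iota
  ext i j
  by_cases hij : i = j
  · subst hij
    simp [Matrix.scalar_apply]
  · simp [Matrix.scalar_apply, Matrix.diagonal_apply_ne _ hij]

/-- a transvection as a unit -/
def tvU (i j : n) (h : i ≠ j) (a : A) : (Matrix n n A)ˣ where
  val := transvection i j a
  inv := transvection i j (-a)
  val_inv := by rw [transvection_mul_transvection_same i j h, add_neg_cancel, transvection_zero]
  inv_val := by rw [transvection_mul_transvection_same i j h, neg_add_cancel, transvection_zero]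

/-- transvections are commutators, `n ≥ 3` -/
theorem tvU_eq (i j l : n) (h : i ≠ j) (hil : i ≠ l) (hlj : l ≠ j) (a : A) :
    tvU i j h a = ⁅tvU i l hil a, tvU l j hlj 1⁆ := by
  rw [commutatorElement_def, eq_mul_inv_iff_mul_eq, eq_mul_inv_iff_mul_eq]
  apply Units.ext
  simp only [Units.val_mul, tvU, transvection]
  have e1 : (Matrix.single i j a : Matrix n n A) * Matrix.single l j 1 = 0 :=
    Matrix.single_mul_single_of_ne _ _ _ _ hlj.symm _
  have e2 : (Matrix.single i j a : Matrix n n A) * Matrix.single i l a = 0 :=
    Matrix.single_mul_single_of_ne _ _ _ _ h.symm _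
  have e3 : (Matrix.single l j (1 : A) : Matrix n n A) * Matrix.single i l a = 0 :=
    Matrix.single_mul_single_of_ne _ _ _ _ h.symm _
  have e4 : (Matrix.single i l a : Matrix n n A) * Matrix.single l j 1 = Matrix.single i j a := by
    rw [Matrix.single_mul_single_same, mul_one]
  generalize (Matrix.single i j a : Matrix n n A) = X at *
  generalize (Matrix.single l j (1 : A) : Matrix n n A) = Y at *
  generalize (Matrix.single i l a : Matrix n n A) = Z at *
  have h1 : (1 + X) * (1 + Y) * (1 + Z) = 1 + X + Y + Z + X * Y + X * Z + Y * Z + X * Y * Z := by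
    noncomm_ring
  have h2 : (1 + Z) * (1 + Y) = 1 + Z + Y + Z * Y := by noncomm_ring
  rw [h1, h2, e1, e2, e3, e4, zero_mul]
  abel

/-- **`NN` is perfect.** -/
theorem NN_perfect [Algebra (ZMod 2) A] (eps : A →+* ZMod 2)
    (hsq : ∀ a b : A, eps a = 0 → eps b = 0 → a * b = 0) (hi : Function.Injective iota)
    (hodd : Odd (Fintype.card n)) (h3 : 3 ≤ Fintype.card n)
    (hJ : ∀ b : A, eps b = 0 → b ∈ AddSubgroup.closure
      {c : A | ∃ p ∈ NZ iota, ∃ a : A, eps a = 0 ∧ (p : P) * iota a = iota (a + c) * p})
    (hN : NZ iota ≤ ⁅NZ iota, NZ iota⁆ ⊔ (Units.map (iota : A →* P)).range) :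
    ⁅NN iota n, NN iota n⁆ = NN iota n := by
  have hne : Nonempty n := Fintype.card_pos_iff.mp (by omega)
  apply le_antisymm
  · rw [Subgroup.commutator_le]
    intro g hg h hh
    rw [commutatorElement_def]
    exact mul_mem (mul_mem (mul_mem hg hh) (inv_mem hg)) (inv_mem hh)
  set K := ⁅NN iota n, NN iota n⁆ with hK
  -- the subgroup of additive elements
  have hscal : ∀ b : A, eps b = 0 → ∃ (g : (Matrix n n A)ˣ), GP n iota g ∈ K ∧
      (g : Matrix n n A) = 1 + Matrix.scalar n b := by
    intro b hb
    have hb' := hJ b hb
    have key : eps b = 0 ∧ ∃ (g : (Matrix n n A)ˣ), GP n iota g ∈ K ∧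
      (g : Matrix n n A) = 1 + Matrix.scalar n b := by
      clear hb
      induction hb' using AddSubgroup.closure_induction with
      | mem c hc =>
        obtain ⟨p, hp, a, ha, hac⟩ := hc
        obtain ⟨s, hs⟩ := exists_sigma hi hp
        have hsa : s a = a + c := by
          apply hi
          have h1 := (hs a).symm.trans hac
          exact p.isUnit.mul_right_cancel h1
        have hesa : eps (s a) = 0 := by
          have h1 : s a * s a = 0 := by rw [← map_mul, hsq a a ha ha, map_zero]
          have h2 : eps (s a) * eps (s a) = 0 := by rw [← map_mul, h1, map_zero]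
          exact mul_self_eq_zero.mp h2
        have hec : eps c = 0 := by
          have : c = s a - a := by rw [hsa]; ring
          rw [this, map_sub, hesa, ha, sub_zero]
        refine ⟨hec, ?_⟩
        set h := scA n A (oneAdd eps hsq a ha) with hh
        refine ⟨scA n A (oneAdd eps hsq c hec), ?_, ?_⟩
        · have hcom : ⁅SP n P p, GP n iota h⁆ ∈ K :=
            Subgroup.commutator_mem_commutator (SP_mem_NN hp) (GP_mem_NN h)
          have h4 := conj_GP (n := n) hs 1 h
          rw [map_one, one_mul] at h4
          rw [commutatorElement_def, h4, ← map_inv, ← map_mul] at hcom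
          convert hcom using 2
          apply Units.ext
          rw [Units.val_mul]
          have h5 : ((1 * Units.map (s : A →+* A).mapMatrix.toMonoidHom h * 1⁻¹ : (Matrix n n A)ˣ) :
              Matrix n n A) = Matrix.scalar n (1 + s a) := by
            rw [one_mul, inv_one, mul_one]
            change (Matrix.scalar n (1 + a)).map s = _
            ext i j
            by_cases hij : i = j
            · subst hij
              simp [Matrix.scalar_apply]
            · simp [Matrix.scalar_apply, Matrix.diagonal_apply_ne _ hij]
          have h6 : ((h⁻¹ : (Matrix n n A)ˣ) : Matrix n n A) = Matrix.scalar n (1 - a) := by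
            rw [hh, ← map_inv]
            rfl
          rw [h5, h6, ← map_mul]
          change Matrix.scalar n (1 + c) = _
          congr 1
          rw [hsa]
          have h7 := hsq a a ha ha
          have h8 := hsq a c ha hec
          linear_combination h7 + h8
        · change Matrix.scalar n (1 + c) = _
          rw [map_add, map_one]
      | zero =>
        refine ⟨map_zero eps, 1, ?_, by simp⟩
        rw [map_one]
        exact one_mem _
      | add x y _ _ hx hy =>
        obtain ⟨hx0, g, hg, hgv⟩ := hx
        obtain ⟨hy0, h, hh, hhv⟩ := hy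
        refine ⟨by rw [map_add, hx0, hy0, add_zero], g * h, ?_, ?_⟩
        · rw [map_mul]; exact mul_mem hg hh
        · rw [Units.val_mul, hgv, hhv, ← map_one (Matrix.scalar n), ← map_add, ← map_add,
            ← map_mul, ← map_add]
          congr 1
          linear_combination hsq x y hx0 hy0
      | neg x _ hx =>
        obtain ⟨hx0, g, hg, hgv⟩ := hx
        refine ⟨by rw [map_neg, hx0, neg_zero], g⁻¹, ?_, ?_⟩
        · rw [map_inv]; exact inv_mem hg
        · apply Units.inv_eq_of_mul_eq_one_right
          rw [hgv, ← map_one (Matrix.scalar n), ← map_add, ← map_add, ← map_mul]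
          congr 1
          linear_combination -(hsq x x hx0 hx0)
    exact key.2
  have hK' : K.comap (GP n iota) = ⊤ := by
    apply gen_top eps hsq hodd
    · intro i j hij a
      obtain ⟨l, hl1, hl2⟩ : ∃ l, i ≠ l ∧ l ≠ j := by
        by_contra hcon
        push Not at hcon
        have h1 : (Finset.univ : Finset n) ⊆ {i, j} := by
          intro x _
          by_cases hx : i = x
          · simp [hx]
          · simp [hcon x hx]
        have h2 := Finset.card_le_card h1
        have h4 : ({i, j} : Finset n).card ≤ 2 := Finset.card_le_two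
        rw [Finset.card_univ] at h2
        omega
      refine ⟨tvU i j hij a, ?_, rfl⟩
      rw [tvU_eq i j l hij hl1 hl2 a, Subgroup.mem_comap, map_commutatorElement]
      exact Subgroup.commutator_mem_commutator (GP_mem_NN _) (GP_mem_NN _)
    · intro a ha
      obtain ⟨g, hg, hgv⟩ := hscal a ha
      exact ⟨g, hg, hgv⟩
  have hGP : ∀ g, GP n iota g ∈ K := by
    intro g
    have : g ∈ K.comap (GP n iota) := by rw [hK']; trivial
    exact this
  have hSP : ∀ p ∈ NZ iota, SP n P p ∈ K := by
    have h1 : (NZ iota).map (SP n P) ≤ K := by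
      refine (Subgroup.map_mono hN).trans ?_
      rw [Subgroup.map_sup, Subgroup.map_commutator]
      apply sup_le
      · apply Subgroup.commutator_mono
        · rintro _ ⟨p, hp, rfl⟩
          exact SP_mem_NN hp
        · rintro _ ⟨p, hp, rfl⟩
          exact SP_mem_NN hp
      · rintro _ ⟨_, ⟨a, rfl⟩, rfl⟩
        rw [SP_iota]
        exact hGP _
    intro p hp
    exact h1 ⟨p, hp, rfl⟩
  intro u hu
  obtain ⟨g, p, rfl, hp⟩ := NN_decomp eps hsq hi hu
  exact mul_mem (hGP g) (hSP p hp)

end

end QH42
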