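import Mathlib
import Pool.Agent.Helper42.QH.NNPerf
import Pool.Agent.Helper43.QN.Stage

/-!
# AUT project, block G6: transport of `QH42.NN` to `QN43.NN`

`psi : (End (E^15))ˣ × GL_15(B) → GL_15(End E × Bᵐᵒᵖ)`, `(x, y) ↦ (x, op (y⁻¹)ᵀ)`.
-/

set_option autoImplicit false
set_option linter.unusedSectionVars false

namespace QH42

open Matrix MulOpposite QN43

/-- the ring `End E × Bᵐᵒᵖ` -/
abbrev PP (E B : Type) [AddCommGroup E] [Ring B] : Type := AddMonoid.End E × Bᵐᵒᵖ

section pm

variable {R S : Type} [Ring R] [Ring S]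

/-- a pair of matrices as a matrix of pairs -/
def pm (X : Mt R) (Y : Mt S) : Mt (R × S) := fun i j => (X i j, Y i j)

theorem pm_mul (X X' : Mt R) (Y Y' : Mt S) : pm X Y * pm X' Y' = pm (X * X') (Y * Y') := by
  ext i j
  · simp [pm, Matrix.mul_apply, Prod.fst_sum]
  · simp [pm, Matrix.mul_apply, Prod.snd_sum]

theorem pm_one : pm (1 : Mt R) (1 : Mt S) = 1 := by
  ext i j
  · simp only [pm, Matrix.one_apply]; split_ifs <;> rfl
  · simp only [pm, Matrix.one_apply]; split_ifs <;> rfl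

theorem pm_inj {X X' : Mt R} {Y Y' : Mt S} (h : pm X Y = pm X' Y') : X = X' ∧ Y = Y' := by
  constructor
  · ext i j
    exact congrArg Prod.fst (congrFun (congrFun h i) j)
  · ext i j
    exact congrArg Prod.snd (congrFun (congrFun h i) j)

/-- the transpose over the opposite ring -/
def TT {B : Type} [Ring B] (Y : Mt B) : Mt Bᵐᵒᵖ := fun i j => op (Y j i)

theorem TT_mul {B : Type} [Ring B] (Y Z : Mt B) : TT (Y * Z) = TT Z * TT Y := by
  ext i j
  simp [TT, Matrix.mul_apply, Finset.op_sum]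

theorem TT_one {B : Type} [Ring B] : TT (1 : Mt B) = 1 := by
  ext i j
  simp only [TT, Matrix.one_apply]
  by_cases h : i = j
  · subst h; simp
  · rw [if_neg (fun h' => h h'.symm), if_neg h]; rfl

theorem TT_inj {B : Type} [Ring B] {Y Z : Mt B} (h : TT Y = TT Z) : Y = Z := by
  ext i j
  exact op_injective (congrFun (congrFun h j) i)

end pm

section E1

variable {E : Type} [AddCommGroup E]

/-- entries of an endomorphism of `E^15` -/
def E1aux (f : AddMonoid.End (Fin 15 → E)) : Mt (AddMonoid.End E) :=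
  fun i j => ({ toFun := fun x => f (Pi.single j x) i
                map_zero' := by rw [Pi.single_zero, map_zero]; rfl
                map_add' := fun x y => by rw [Pi.single_add, map_add]; rfl } : E →+ E)

theorem E1aux_apply (f : AddMonoid.End (Fin 15 → E)) (i j : Fin 15) (x : E) :
    E1aux f i j x = f (Pi.single j x) i := rfl

/-- endomorphisms of `E^15` as matrices of endomorphisms -/
def E1 : AddMonoid.End (Fin 15 → E) →+* Mt (AddMonoid.End E) where
  toFun := E1aux
  map_one' := by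
    ext i j x
    rw [E1aux_apply]
    change (Pi.single j x : Fin 15 → E) i = _
    by_cases h : i = j
    · subst h
      rw [Matrix.one_apply_eq, Pi.single_eq_same]
      rfl
    · rw [Matrix.one_apply_ne h, Pi.single_eq_of_ne h]; rfl
  map_mul' f g := by
    ext i j x
    rw [E1aux_apply, Matrix.mul_apply]
    change f (g (Pi.single j x)) i = _
    have h1 : g (Pi.single j x) = ∑ l, Pi.single l (g (Pi.single j x) l) :=
      (Finset.univ_sum_single _).symm
    rw [h1, map_sum, Finset.sum_apply]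
    have h2 : ∀ (s : Finset (Fin 15)) (F : Fin 15 → AddMonoid.End E) (y : E),
        (∑ l ∈ s, F l) y = ∑ l ∈ s, F l y := fun s F y => AddMonoidHom.finsetSum_apply F s y
    rw [h2]
    rfl
  map_zero' := by
    ext i j x
    rfl
  map_add' f g := by
    ext i j x
    rfl

theorem E1_apply (f : AddMonoid.End (Fin 15 → E)) (i j : Fin 15) (x : E) :
    E1 f i j x = f (Pi.single j x) i := rfl

theorem E1_inj {f g : AddMonoid.End (Fin 15 → E)} (h : E1 f = E1 g) : f = g := by
  apply AddMonoidHom.ext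
  intro v
  rw [← Finset.univ_sum_single v, map_sum, map_sum]
  refine Finset.sum_congr rfl fun j _ => ?_
  funext i
  have h1 := congrArg (fun X : AddMonoid.End E => X (v j)) (congrFun (congrFun h i) j)
  exact h1

end E1

section psi

variable {A : Type} [CommRing A] {B : Type} [Ring B] (κ : A →+* B)
variable (E : Type) [AddCommGroup E] [Module A E]

/-- `A → Bᵐᵒᵖ` -/
def kop : A →+* Bᵐᵒᵖ :=
  RingHom.toOpposite κ (fun x y => by
    show κ x * κ y = κ y * κ x
    rw [← map_mul, mul_comm, map_mul])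

theorem kop_apply (a : A) : kop κ a = op (κ a) := rfl

/-- `A → End E × Bᵐᵒᵖ` -/
def io : A →+* PP E B := RingHom.prod (Module.toAddMonoidEnd A E) (kop κ)

theorem io_fst (a : A) (x : E) : (io κ E a).1 x = a • x := rfl
theorem io_snd (a : A) : (io κ E a).2 = op (κ a) := rfl

theorem io_inj (hk : Function.Injective κ) : Function.Injective (io κ E) := by
  intro a b h
  apply hk
  exact op_injective (congrArg Prod.snd h)

theorem E1_mact (m : Mt A) : E1 (mact (M := E) m) = m.map (Module.toAddMonoidEnd A E) := by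
  ext i j x
  change mact m (Pi.single j x) i = m i j • x
  rw [mact_apply, Finset.sum_eq_single j]
  · simp
  · intro l _ hl
    rw [Pi.single_eq_of_ne hl, smul_zero]
  · intro h; exact absurd (Finset.mem_univ j) h

theorem TT_kT (m : Mt A) : TT (kT κ m) = m.map (kop κ) := rfl

theorem pm_map (m : Mt A) :
    pm (m.map (Module.toAddMonoidEnd A E)) (m.map (kop κ)) = m.map (io κ E) := rfl

/-- the transport map -/
def psi : (AddMonoid.End (Fin 15 → E))ˣ × (Mt B)ˣ →* (Matrix (Fin 15) (Fin 15) (PP E B))ˣ where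
  toFun n :=
    { val := pm (E1 (n.1 : AddMonoid.End (Fin 15 → E))) (TT ((n.2⁻¹ : (Mt B)ˣ) : Mt B))
      inv := pm (E1 ((n.1⁻¹ : (AddMonoid.End (Fin 15 → E))ˣ) : AddMonoid.End (Fin 15 → E)))
        (TT (n.2 : Mt B))
      val_inv := by
        rw [pm_mul, ← map_mul, ← TT_mul, Units.mul_inv, Units.mul_inv, map_one, TT_one, pm_one]
      inv_val := by
        rw [pm_mul, ← map_mul, ← TT_mul, Units.inv_mul, Units.inv_mul, map_one, TT_one, pm_one] }
  map_one' := by
    apply Units.ext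
    change pm (E1 (1 : AddMonoid.End (Fin 15 → E))) (TT (((1 : (Mt B)ˣ)⁻¹ : (Mt B)ˣ) : Mt B)) = 1
    rw [inv_one, Units.val_one, map_one, TT_one, pm_one]
  map_mul' n m := by
    apply Units.ext
    change pm (E1 ((n.1 : AddMonoid.End (Fin 15 → E)) * (m.1 : AddMonoid.End (Fin 15 → E))))
      (TT ((((n.2 * m.2 : (Mt B)ˣ))⁻¹ : (Mt B)ˣ) : Mt B)) =
      pm (E1 (n.1 : AddMonoid.End (Fin 15 → E))) (TT ((n.2⁻¹ : (Mt B)ˣ) : Mt B)) *
      pm (E1 (m.1 : AddMonoid.End (Fin 15 → E))) (TT ((m.2⁻¹ : (Mt B)ˣ) : Mt B))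
    rw [pm_mul, ← map_mul, ← TT_mul, _root_.mul_inv_rev, Units.val_mul]

theorem psi_val (n : (AddMonoid.End (Fin 15 → E))ˣ × (Mt B)ˣ) :
    (psi (B := B) E n : Mt (PP E B)) =
      pm (E1 (n.1 : AddMonoid.End (Fin 15 → E))) (TT ((n.2⁻¹ : (Mt B)ˣ) : Mt B)) := rfl

theorem psi_inj : Function.Injective (psi (B := B) E) := by
  intro n m h
  have h1 := congrArg (fun u : (Matrix (Fin 15) (Fin 15) (PP E B))ˣ => (u : Mt (PP E B))) h
  simp only [psi_val] at h1
  obtain ⟨h2, h3⟩ := pm_inj h1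
  refine Prod.ext (Units.ext (E1_inj h2)) ?_
  have h4 : n.2⁻¹ = m.2⁻¹ := Units.ext (TT_inj h3)
  exact inv_injective h4

theorem psi_sig (g : (Mt A)ˣ) : psi E (sig0 κ E g) = GP (Fin 15) (io κ E) g := by
  apply Units.ext
  rw [GP_val, psi_val, ← pm_map, ← E1_mact]
  rfl

/-- `(e, b) ↦ (e, op b⁻¹)` -/
def p0 : (AddMonoid.End E)ˣ × Bˣ →* (PP E B)ˣ where
  toFun n :=
    { val := ((n.1 : AddMonoid.End E), op ((n.2⁻¹ : Bˣ) : B))
      inv := (((n.1⁻¹ : (AddMonoid.End E)ˣ) : AddMonoid.End E), op (n.2 : B))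
      val_inv := by
        refine Prod.ext ?_ ?_
        · exact Units.mul_inv n.1
        · change op ((n.2⁻¹ : Bˣ) : B) * op (n.2 : B) = 1
          rw [← op_mul, Units.mul_inv, op_one]
      inv_val := by
        refine Prod.ext ?_ ?_
        · exact Units.inv_mul n.1
        · change op (n.2 : B) * op ((n.2⁻¹ : Bˣ) : B) = 1
          rw [← op_mul, Units.inv_mul, op_one] }
  map_one' := by
    apply Units.ext
    refine Prod.ext rfl ?_
    change op (((1 : Bˣ)⁻¹ : Bˣ) : B) = 1
    rw [inv_one, Units.val_one, op_one]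
  map_mul' n m := by
    apply Units.ext
    refine Prod.ext rfl ?_
    change op (((n.2 * m.2)⁻¹ : Bˣ) : B) = op ((n.2⁻¹ : Bˣ) : B) * op ((m.2⁻¹ : Bˣ) : B)
    rw [_root_.mul_inv_rev, Units.val_mul, op_mul]

theorem p0_surj : Function.Surjective (p0 (B := B) E) := by
  intro p
  refine ⟨(⟨(p : PP E B).1, ((p⁻¹ : (PP E B)ˣ) : PP E B).1, ?_, ?_⟩,
    ⟨unop ((p⁻¹ : (PP E B)ˣ) : PP E B).2, unop (p : PP E B).2, ?_, ?_⟩), ?_⟩
  · have := congrArg Prod.fst (Units.mul_inv p)
    exact this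
  · have := congrArg Prod.fst (Units.inv_mul p)
    exact this
  · have := congrArg Prod.snd (Units.mul_inv p)
    rw [← unop_mul]
    exact congrArg unop this
  · have := congrArg Prod.snd (Units.inv_mul p)
    rw [← unop_mul]
    exact congrArg unop this
  · apply Units.ext
    rfl

theorem p0_inj : Function.Injective (p0 (B := B) E) := by
  intro n m h
  have h1 := congrArg (fun u : (PP E B)ˣ => (u : PP E B)) h
  have h2 : (n.1 : AddMonoid.End E) = m.1 := congrArg Prod.fst h1
  have h3 : op ((n.2⁻¹ : Bˣ) : B) = op ((m.2⁻¹ : Bˣ) : B) := congrArg Prod.snd h1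
  refine Prod.ext (Units.ext h2) ?_
  exact inv_injective (Units.ext (op_injective h3))

/-- the pair `1 ⊗ (e, b)` -/
def ten : (AddMonoid.End E)ˣ × Bˣ →* (AddMonoid.End (Fin 15 → E))ˣ × (Mt B)ˣ where
  toFun n :=
    ({ val := (AddMonoidHom.compLeft (n.1 : AddMonoid.End E) (Fin 15))
       inv := (AddMonoidHom.compLeft ((n.1⁻¹ : (AddMonoid.End E)ˣ) : AddMonoid.End E) (Fin 15))
       val_inv := by
        apply AddMonoidHom.ext
        intro x
        funext i
        have h := congrArg (fun g : AddMonoid.End E => g (x i)) (Units.mul_inv n.1)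
        exact h
       inv_val := by
        apply AddMonoidHom.ext
        intro x
        funext i
        have h := congrArg (fun g : AddMonoid.End E => g (x i)) (Units.inv_mul n.1)
        exact h },
     Units.map (Matrix.scalar (Fin 15) : B →+* Mt B).toMonoidHom n.2)
  map_one' := by
    refine Prod.ext ?_ ?_
    · apply Units.ext
      apply AddMonoidHom.ext
      intro x
      rfl
    · exact map_one _
  map_mul' n m := by
    refine Prod.ext ?_ ?_
    · apply Units.ext
      apply AddMonoidHom.ext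
      intro x
      rfl
    · exact map_mul _ _ _

theorem ten_fst (n : (AddMonoid.End E)ˣ × Bˣ) (v : Fin 15 → E) (i : Fin 15) :
    ((ten E n).1 : AddMonoid.End (Fin 15 → E)) v i = (n.1 : AddMonoid.End E) (v i) := rfl

theorem ten_snd (n : (AddMonoid.End E)ˣ × Bˣ) :
    ((ten E n).2 : Mt B) = Matrix.scalar (Fin 15) (n.2 : B) := rfl

theorem psi_ten (n : (AddMonoid.End E)ˣ × Bˣ) : psi E (ten E n) = SP (Fin 15) (PP E B) (p0 E n) := by
  apply Units.ext
  rw [psi_val, SP_val]
  have h1 : E1 ((ten E n).1 : AddMonoid.End (Fin 15 → E)) =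
      Matrix.scalar (Fin 15) (n.1 : AddMonoid.End E) := by
    ext i j x
    rw [E1_apply, ten_fst]
    by_cases h : i = j
    · subst h; simp [Matrix.scalar_apply]
    · rw [Pi.single_eq_of_ne h, map_zero, Matrix.scalar_apply, Matrix.diagonal_apply_ne _ h]
      rfl
  have h2 : (((ten E n).2⁻¹ : (Mt B)ˣ) : Mt B) = Matrix.scalar (Fin 15) ((n.2⁻¹ : Bˣ) : B) := rfl
  rw [h1, h2]
  ext i j
  · by_cases h : i = j
    · subst h; simp [pm, Matrix.scalar_apply, p0]
    · simp only [pm, Matrix.scalar_apply, Matrix.diagonal_apply_ne _ h]; rfl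
  · by_cases h : i = j
    · subst h; simp [pm, TT, Matrix.scalar_apply, p0]
    · have h' : ¬ j = i := fun e => h e.symm
      simp only [pm, TT, Matrix.scalar_apply, Matrix.diagonal_apply_ne _ h,
        Matrix.diagonal_apply_ne _ h']
      rfl

theorem rel_iff (n : (AddMonoid.End (Fin 15 → E))ˣ × (Mt B)ˣ) (m m' : Mt A) :
    QN43.Rel κ E n m m' ↔ (psi E n : Mt (PP E B)) * m.map (io κ E) = m'.map (io κ E) * psi E n := by
  have h2 : ((n.2 : Mt B) * kT κ m = kT κ m' * (n.2 : Mt B)) ↔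
      (TT ((n.2⁻¹ : (Mt B)ˣ) : Mt B) * TT (kT κ m) = TT (kT κ m') * TT ((n.2⁻¹ : (Mt B)ˣ) : Mt B)) := by
    rw [← TT_mul, ← TT_mul]
    constructor
    · intro h
      congr 1
      calc kT κ m * ((n.2⁻¹ : (Mt B)ˣ) : Mt B)
          = ((n.2⁻¹ : (Mt B)ˣ) : Mt B) * ((n.2 : Mt B) * kT κ m) * ((n.2⁻¹ : (Mt B)ˣ) : Mt B) := by
            rw [← mul_assoc, Units.inv_mul, one_mul]
        _ = ((n.2⁻¹ : (Mt B)ˣ) : Mt B) * kT κ m' := by
            rw [h, mul_assoc, mul_assoc, Units.mul_inv, mul_one]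
    · intro h
      have h3 := TT_inj h
      calc (n.2 : Mt B) * kT κ m
          = (n.2 : Mt B) * (kT κ m * ((n.2⁻¹ : (Mt B)ˣ) : Mt B)) * (n.2 : Mt B) := by
            rw [mul_assoc, mul_assoc, Units.inv_mul, mul_one]
        _ = kT κ m' * (n.2 : Mt B) := by
            rw [h3, ← mul_assoc, Units.mul_inv, one_mul]
  have h1 : ((n.1 : AddMonoid.End (Fin 15 → E)) * mact m = mact m' * (n.1 : AddMonoid.End (Fin 15 → E)))
      ↔ (E1 (n.1 : AddMonoid.End (Fin 15 → E)) * E1 (mact (M := E) m) =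
        E1 (mact (M := E) m') * E1 (n.1 : AddMonoid.End (Fin 15 → E))) := by
    rw [← map_mul, ← map_mul]
    exact ⟨fun h => by rw [h], fun h => E1_inj h⟩
  unfold QN43.Rel
  rw [h1, h2, psi_val, ← pm_map, ← pm_map, pm_mul, pm_mul, ← TT_kT, ← TT_kT, ← E1_mact, ← E1_mact]
  constructor
  · rintro ⟨h3, h4⟩
    rw [h3, h4]
  · intro h
    exact pm_inj h

theorem rel0_iff (n : (AddMonoid.End E)ˣ × Bˣ) (a a' : A) :
    Rel0 κ E n a a' ↔ (p0 E n : PP E B) * io κ E a = io κ E a' * p0 E n := by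
  have h2 : ((n.2 : B) * κ a = κ a' * (n.2 : B)) ↔
      (op ((n.2⁻¹ : Bˣ) : B) * op (κ a) = op (κ a') * op ((n.2⁻¹ : Bˣ) : B)) := by
    rw [← op_mul, ← op_mul]
    constructor
    · intro h
      congr 1
      calc κ a * ((n.2⁻¹ : Bˣ) : B)
          = ((n.2⁻¹ : Bˣ) : B) * ((n.2 : B) * κ a) * ((n.2⁻¹ : Bˣ) : B) := by
            rw [← mul_assoc, Units.inv_mul, one_mul]
        _ = ((n.2⁻¹ : Bˣ) : B) * κ a' := by
            rw [h, mul_assoc, mul_assoc, Units.mul_inv, mul_one]
    · intro h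
      have h3 := op_injective h
      calc (n.2 : B) * κ a
          = (n.2 : B) * (κ a * ((n.2⁻¹ : Bˣ) : B)) * (n.2 : B) := by
            rw [mul_assoc, mul_assoc, Units.inv_mul, mul_one]
        _ = κ a' * (n.2 : B) := by
            rw [h3, ← mul_assoc, Units.mul_inv, one_mul]
  unfold Rel0
  rw [h2]
  constructor
  · rintro ⟨h3, h4⟩
    refine Prod.ext ?_ ?_
    · apply AddMonoidHom.ext
      intro x
      exact h3 x
    · exact h4
  · intro h
    refine ⟨fun x => ?_, congrArg Prod.snd h⟩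
    have h5 := congrArg (fun y : PP E B => y.1 x) h
    exact h5

end psi

end QH42
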