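import Mathlib
import Pool.Agent.Helper42.QH.Psi

/-!
# AUT project, block G6: the five facts on `QN43.NN`

`exists_qN`, `NN_perf`, `G1s_normal`, `NN_pow`, `NN_comm` of `Helper43/QN/Steps`, with the extra
hypothesis `kerSq` (the kernel of `p` has exponent two).
-/

set_option autoImplicit false
set_option linter.unusedSectionVars false

namespace QH42

open Matrix MulOpposite QN43

section gen

variable {A : Type} [CommRing A] {B : Type} [Ring B] {κ : A →+* B}
variable {E : Type} [AddCommGroup E] [Module A E]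

theorem psi_mem_iff (n : (AddMonoid.End (Fin 15 → E))ˣ × (Mt B)ˣ) :
    n ∈ QN43.NN κ E ↔ psi E n ∈ NN (io κ E) (Fin 15) := by
  have key : ∀ m m' : Mt A, QN43.Rel κ E n m m' ↔
      ((psi (B := B) E n)⁻¹ : (Matrix (Fin 15) (Fin 15) (PP E B))ˣ).val * m'.map (io κ E) =
        m.map (io κ E) * ((psi (B := B) E n)⁻¹ : (Matrix (Fin 15) (Fin 15) (PP E B))ˣ).val := by
    intro m m'
    rw [rel_iff]
    set u := psi (B := B) E n
    constructor
    · intro h
      calc (u⁻¹ : (Matrix (Fin 15) (Fin 15) (PP E B))ˣ).val * m'.map (io κ E)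
          = (u⁻¹ : (Matrix (Fin 15) (Fin 15) (PP E B))ˣ).val * (m'.map (io κ E) * u) *
              (u⁻¹ : (Matrix (Fin 15) (Fin 15) (PP E B))ˣ).val := by
            rw [mul_assoc, mul_assoc, Units.mul_inv, mul_one]
        _ = m.map (io κ E) * (u⁻¹ : (Matrix (Fin 15) (Fin 15) (PP E B))ˣ).val := by
            rw [← h, ← mul_assoc, Units.inv_mul, one_mul]
    · intro h
      calc (u : Mt (PP E B)) * m.map (io κ E)
          = u * (m.map (io κ E) * (u⁻¹ : (Matrix (Fin 15) (Fin 15) (PP E B))ˣ).val) * u := by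
            rw [mul_assoc, mul_assoc, Units.inv_mul, mul_one]
        _ = m'.map (io κ E) * u := by
            rw [← h, ← mul_assoc, Units.mul_inv, one_mul]
  constructor
  · rintro ⟨h1, h2⟩
    constructor
    · intro m
      obtain ⟨m', hm⟩ := h1 m
      exact ⟨m', (rel_iff κ E n m m').mp hm⟩
    · intro m
      obtain ⟨m', hm⟩ := h2 m
      exact ⟨m', (key m' m).mp hm⟩
  · rintro ⟨h1, h2⟩
    constructor
    · intro m
      obtain ⟨m', hm⟩ := h1 m
      exact ⟨m', (rel_iff κ E n m m').mpr hm⟩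
    · intro m
      obtain ⟨m', hm⟩ := h2 m
      exact ⟨m', (key m' m).mpr hm⟩

theorem p0_mem_iff (n : (AddMonoid.End E)ˣ × Bˣ) :
    n ∈ NN0 κ E ↔ p0 E n ∈ NZ (io κ E) := by
  have key : ∀ a a' : A, Rel0 κ E n a a' ↔
      ((p0 (B := B) E n)⁻¹ : (PP E B)ˣ).val * io κ E a' =
        io κ E a * ((p0 (B := B) E n)⁻¹ : (PP E B)ˣ).val := by
    intro m m'
    rw [rel0_iff]
    set u := p0 (B := B) E n
    constructor
    · intro h
      calc (u⁻¹ : (PP E B)ˣ).val * io κ E m'
          = (u⁻¹ : (PP E B)ˣ).val * (io κ E m' * u) * (u⁻¹ : (PP E B)ˣ).val := by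
            rw [mul_assoc, mul_assoc, Units.mul_inv, mul_one]
        _ = io κ E m * (u⁻¹ : (PP E B)ˣ).val := by
            rw [← h, ← mul_assoc, Units.inv_mul, one_mul]
    · intro h
      calc (u : PP E B) * io κ E m
          = u * (io κ E m * (u⁻¹ : (PP E B)ˣ).val) * u := by
            rw [mul_assoc, mul_assoc, Units.inv_mul, mul_one]
        _ = io κ E m' * u := by
            rw [← h, ← mul_assoc, Units.mul_inv, one_mul]
  constructor
  · rintro ⟨h1, h2⟩
    constructor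
    · intro m
      obtain ⟨m', hm⟩ := h1 m
      exact ⟨m', (rel0_iff κ E n m m').mp hm⟩
    · intro m
      obtain ⟨m', hm⟩ := h2 m
      exact ⟨m', (key m' m).mp hm⟩
  · rintro ⟨h1, h2⟩
    constructor
    · intro m
      obtain ⟨m', hm⟩ := h1 m
      exact ⟨m', (rel0_iff κ E n m m').mpr hm⟩
    · intro m
      obtain ⟨m', hm⟩ := h2 m
      exact ⟨m', (key m' m).mpr hm⟩

theorem ten_mem {n : (AddMonoid.End E)ˣ × Bˣ} (hn : n ∈ NN0 κ E) : ten E n ∈ QN43.NN κ E := by
  rw [psi_mem_iff, psi_ten]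
  exact SP_mem_NN ((p0_mem_iff n).mp hn)

theorem decomp (eps : A →+* ZMod 2) (hsq : ∀ a b : A, eps a = 0 → eps b = 0 → a * b = 0)
    (hk : Function.Injective κ) {n : (AddMonoid.End (Fin 15 → E))ˣ × (Mt B)ˣ}
    (hn : n ∈ QN43.NN κ E) : ∃ (g : (Mt A)ˣ) (n0 : (AddMonoid.End E)ˣ × Bˣ), n0 ∈ NN0 κ E ∧
      n = sig0 κ E g * ten E n0 := by
  obtain ⟨g, p, h1, h2⟩ := NN_decomp eps hsq (io_inj κ E hk) ((psi_mem_iff n).mp hn)
  obtain ⟨n0, rfl⟩ := p0_surj E p
  refine ⟨g, n0, (p0_mem_iff n0).mpr h2, ?_⟩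
  apply psi_inj E
  rw [map_mul, psi_sig, psi_ten, h1]

/-- the scalars `(a, κ(a⁻¹))` -/
def scl (κ : A →+* B) (E : Type) [AddCommGroup E] [Module A E] :
    Aˣ →* (AddMonoid.End E)ˣ × Bˣ :=
  (Units.map (Module.toAddMonoidEnd A E : A →* AddMonoid.End E)).prod
    ((Units.map (κ : A →* B)).comp (MulEquiv.inv Aˣ).toMonoidHom)

theorem scl_fst (a : Aˣ) (x : E) : ((scl κ E a).1 : AddMonoid.End E) x = (a : A) • x := rfl

theorem scl_snd (a : Aˣ) : ((scl κ E a).2 : B) = κ ((a⁻¹ : Aˣ) : A) := rfl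

theorem p0_scl (a : Aˣ) : p0 E (scl κ E a) = Units.map (io κ E : A →* PP E B) a := by
  apply Units.ext
  refine Prod.ext rfl ?_
  change op (((scl κ E a).2⁻¹ : Bˣ) : B) = op (κ a)
  congr 1

theorem ten_scl (a : Aˣ) : ten E (scl κ E a) = sig0 κ E (scA (Fin 15) A a) := by
  apply psi_inj E
  rw [psi_ten, psi_sig, p0_scl, SP_iota]

theorem rel0_scl (a : Aˣ) (b : A) : Rel0 κ E (scl κ E a) b b := by
  rw [rel0_iff, p0_scl]
  change io κ E a * io κ E b = io κ E b * io κ E a
  rw [← map_mul, ← map_mul, mul_comm]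

theorem scl_mem (a : Aˣ) : scl κ E a ∈ NN0 κ E :=
  ⟨fun b => ⟨b, rel0_scl a b⟩, fun b => ⟨b, rel0_scl a b⟩⟩

theorem eq_scl {n0 : (AddMonoid.End E)ˣ × Bˣ} {a : Aˣ}
    (h : (p0 (B := B) E n0 : PP E B) = io κ E a) : n0 = scl κ E a := by
  apply p0_inj E
  rw [p0_scl]
  apply Units.ext
  exact h

theorem rel_scalar_iff (g : (Mt A)ˣ) (n0 : (AddMonoid.End E)ˣ × Bˣ) (a a' : A) :
    QN43.Rel κ E (sig0 κ E g * ten E n0) (Matrix.scalar (Fin 15) a) (Matrix.scalar (Fin 15) a') ↔
      Rel0 κ E n0 a a' := by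
  rw [rel_iff, rel0_iff, map_mul, psi_sig, psi_ten, Units.val_mul]
  have h1 : ∀ b : A, (Matrix.scalar (Fin 15) b : Mt A).map (io κ E) =
      Matrix.scalar (Fin 15) (io κ E b) := by
    intro b
    refine Matrix.ext fun i j => ?_
    by_cases hij : i = j
    · subst hij
      simp [Matrix.scalar_apply]
    · simp only [Matrix.map_apply, Matrix.scalar_apply, Matrix.diagonal_apply_ne _ hij, map_zero]
  have h2 : ∀ b : A, (GP (Fin 15) (io κ E) g : Mt (PP E B)) * Matrix.scalar (Fin 15) (io κ E b) =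
      Matrix.scalar (Fin 15) (io κ E b) * (GP (Fin 15) (io κ E) g : Mt (PP E B)) := by
    intro b
    rw [← h1, GP_val, ← Matrix.map_mul, ← Matrix.map_mul]
    congr 1
    exact (Matrix.scalar_commute b (fun c => mul_comm b c) _).symm
  rw [h1, h1, SP_val]
  constructor
  · intro h
    have h3 : (GP (Fin 15) (io κ E) g : Mt (PP E B)) *
        Matrix.scalar (Fin 15) ((p0 (B := B) E n0 : PP E B) * io κ E a) =
        (GP (Fin 15) (io κ E) g : Mt (PP E B)) *
        Matrix.scalar (Fin 15) (io κ E a' * (p0 (B := B) E n0 : PP E B)) := by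
      rw [map_mul, map_mul, ← mul_assoc, ← mul_assoc, h2, h, mul_assoc]
    have h4 := (GP (Fin 15) (io κ E) g).isUnit.mul_left_cancel h3
    exact Matrix.scalar_inj.mp h4
  · intro h
    rw [mul_assoc, ← map_mul, h, map_mul, ← mul_assoc, h2, mul_assoc]

/-- `G1s` is normal. -/
theorem G1s_normal' (eps : A →+* ZMod 2) (hsq : ∀ a b : A, eps a = 0 → eps b = 0 → a * b = 0)
    (hk : Function.Injective κ) : (G1s κ E).Normal := by
  constructor
  rintro _ ⟨g, rfl⟩ n
  have h1 : psi E (n.1 * (sig κ E g).1 * n.1⁻¹) ∈ (GP (Fin 15) (io κ E)).range := by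
    rw [map_mul, map_mul, map_inv]
    apply conj_GP_mem eps hsq (io_inj κ E hk) ((psi_mem_iff n.1).mp n.2)
    exact ⟨g, (psi_sig κ E g).symm⟩
  obtain ⟨g', hg'⟩ := h1
  refine ⟨g', ?_⟩
  apply Subtype.ext
  apply psi_inj E
  change psi E (sig0 κ E g') = psi E (n.1 * (sig κ E g).1 * n.1⁻¹)
  rw [psi_sig, hg']

theorem additive_closure_GL : AddSubgroup.closure (Set.range (fun g : (Mt A)ˣ => (g : Mt A))) = ⊤ := by
  set S := AddSubgroup.closure (Set.range (fun g : (Mt A)ˣ => (g : Mt A))) with hS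
  have hg : ∀ g : (Mt A)ˣ, (g : Mt A) ∈ S := fun g => AddSubgroup.subset_closure ⟨g, rfl⟩
  have h1 : (1 : Mt A) ∈ S := hg 1
  have hoff : ∀ i j : Fin 15, i ≠ j → ∀ a : A, Matrix.single i j a ∈ S := by
    intro i j hij a
    have h2 := S.sub_mem (hg (tvU i j hij a)) h1
    have h3 : ((tvU i j hij a : (Mt A)ˣ) : Mt A) - 1 = Matrix.single i j a := by
      change transvection i j a - 1 = _
      rw [transvection, add_sub_cancel_left]
    rwa [h3] at h2
  have hdiag : ∀ i : Fin 15, ∀ a : A, Matrix.single i i a ∈ S := by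
    intro i a
    obtain ⟨j, hj⟩ : ∃ j : Fin 15, i ≠ j := by
      by_cases h : i = 0
      · exact ⟨1, by rw [h]; decide⟩
      · exact ⟨0, h⟩
    have h2 := hg (tvU i j hj a * tvU j i hj.symm 1)
    have h3 : ((tvU i j hj a * tvU j i hj.symm 1 : (Mt A)ˣ) : Mt A) =
        1 + Matrix.single j i 1 + Matrix.single i j a + Matrix.single i i a := by
      rw [Units.val_mul]
      change transvection i j a * transvection j i 1 = _
      rw [transvection, transvection, add_mul, mul_add, mul_add,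
        Matrix.single_mul_single_same]
      simp only [mul_one, one_mul]
      abel
    rw [h3] at h2
    have h4 := S.sub_mem (S.sub_mem (S.sub_mem h2 (hoff i j hj a)) (hoff j i hj.symm 1)) h1
    have h5 : 1 + Matrix.single j i 1 + Matrix.single i j a + Matrix.single i i a -
        Matrix.single i j a - Matrix.single j i 1 - 1 = (Matrix.single i i a : Mt A) := by abel
    rwa [h5] at h4
  rw [eq_top_iff]
  intro m _
  rw [Matrix.matrix_eq_sum_single m]
  apply S.sum_mem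
  intro i _
  apply S.sum_mem
  intro j _
  by_cases hij : i = j
  · subst hij; exact hdiag i _
  · exact hoff i j hij _

/-- elements of `NN` commuting with `G1s` -/
theorem centralizer_eq {n : (AddMonoid.End (Fin 15 → E))ˣ × (Mt B)ˣ} 
    (hn : ∀ g, n * sig0 κ E g = sig0 κ E g * n) :
    ∃ n0 ∈ NN0 κ E, n = ten E n0 ∧ ∀ a, Rel0 κ E n0 a a := by
  obtain ⟨p, hp1, hp2⟩ := centralizer_of_closure (iota := io κ E)
    (Set.range (fun g : (Mt A)ˣ => (g : Mt A))) additive_closure_GL (psi E n) (by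
      rintro _ ⟨g, rfl⟩
      have h1 := congrArg (fun u => ((psi (B := B) E u : (Matrix (Fin 15) (Fin 15) (PP E B))ˣ) :
        Mt (PP E B))) (hn g)
      simp only [map_mul, psi_sig, Units.val_mul, GP_val] at h1
      exact h1)
  obtain ⟨n0, rfl⟩ := p0_surj E p
  have h3 : ∀ a, Rel0 κ E n0 a a := fun a => (rel0_iff κ E n0 a a).mpr (hp2 a)
  refine ⟨n0, ⟨fun a => ⟨a, h3 a⟩, fun a => ⟨a, h3 a⟩⟩, ?_, h3⟩
  apply psi_inj E
  rw [hp1, psi_ten]

end gen

section main

variable {J : Type} [AddCommGroup J] [Module (ZMod 2) J] [Module (ZMod 2)ᵐᵒᵖ J]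
  [IsCentralScalar (ZMod 2) J]

/-- the augmentation of `A0 J` -/
def epsA : A0 J →+* ZMod 2 := (TrivSqZeroExt.fstHom (ZMod 2) (ZMod 2) J).toRingHom

theorem epsA_apply (a : A0 J) : epsA a = a.fst := rfl

theorem epsA_sq (a b : A0 J) (ha : epsA a = 0) (hb : epsA b = 0) : a * b = 0 := by
  rw [epsA_apply] at ha hb
  ext
  · rw [TrivSqZeroExt.fst_mul, ha, zero_mul]; rfl
  · rw [TrivSqZeroExt.snd_mul, ha, hb]
    simp

theorem eq_inr {a : A0 J} (ha : epsA a = 0) : a = TrivSqZeroExt.inr a.snd := by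
  rw [epsA_apply] at ha
  ext
  · rw [ha]; rfl
  · rfl

variable {B E W O : Type} [Ring B] [AddCommGroup E] [Module (A0 J) E] [AddCommGroup W]
    [Module (A0 J) W] [Group O] [DistribMulAction O W]
    {κ : A0 J →+* B} {Φ : J ≃+ (Fin 15 → W)} {p : NN0 κ E →* O}

private theorem faith2 (faithO : ∀ o : O, (∀ w : W, o • w = w) → o = 1) (Φ : J ≃+ (Fin 15 → W))
    {o o' : O} (h : ∀ j i, o • Φ j i = o' • Φ j i) : o = o' := by
  have h1 : o'⁻¹ * o = 1 := by
    apply faithO
    intro w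
    have h2 := h (Φ.symm (fun _ => w)) 0
    rw [AddEquiv.apply_symm_apply] at h2
    rw [mul_smul, h2, inv_smul_smul]
  exact (inv_mul_eq_one.mp h1).symm

/-- elements of `NN0` commuting with the scalars are in the kernel of `p` -/
theorem p_eq_one (faithO : ∀ o : O, (∀ w : W, o • w = w) → o = 1)
    (phiP : ∀ (n : NN0 κ E) (j j' : J), Rel0 κ E n.1 (TrivSqZeroExt.inr j) (TrivSqZeroExt.inr j') →
      ∀ i, Φ j' i = p n • Φ j i)
    (n : NN0 κ E) (hn : ∀ a, Rel0 κ E n.1 a a) : p n = 1 := by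
  apply faith2 faithO Φ
  intro j i
  rw [← phiP n j j (hn _) i, one_smul]

theorem rel0_inr (hk : Function.Injective κ) (n0 : (AddMonoid.End E)ˣ × Bˣ)
    (hn0 : n0 ∈ NN0 κ E) (j : J) :
    ∃ j' : J, Rel0 κ E n0 (TrivSqZeroExt.inr j) (TrivSqZeroExt.inr j') := by
  obtain ⟨a', ha'⟩ := hn0.1 (TrivSqZeroExt.inr j)
  obtain ⟨s, hs⟩ := exists_sigma (io_inj κ E hk) ((p0_mem_iff n0).mp hn0)
  have h1 := (rel0_iff κ E n0 _ _).mp ha'
  have h2 : s (TrivSqZeroExt.inr j) = a' := by
    apply io_inj κ E hk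
    have h3 := (hs (TrivSqZeroExt.inr j)).symm.trans h1
    exact (p0 (B := B) E n0).isUnit.mul_right_cancel h3
  have h3 : (TrivSqZeroExt.inr j : A0 J) * TrivSqZeroExt.inr j = 0 := epsA_sq _ _ rfl rfl
  have h4 : a' * a' = 0 := by rw [← h2, ← map_mul, h3, map_zero]
  have h5 : epsA a' = 0 := by
    have h6 : epsA a' * epsA a' = 0 := by rw [← map_mul, h4, map_zero]
    exact mul_self_eq_zero.mp h6
  refine ⟨a'.snd, ?_⟩
  rw [← eq_inr h5]
  exact ha'

theorem rel_unique (hk : Function.Injective κ) {n : (AddMonoid.End (Fin 15 → E))ˣ × (Mt B)ˣ}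
    {m m' m'' : Mt (A0 J)} (h1 : QN43.Rel κ E n m m') (h2 : QN43.Rel κ E n m m'') : m' = m'' := by
  rw [rel_iff] at h1 h2
  have h3 := h1.symm.trans h2
  have h4 := (psi (B := B) E n).isUnit.mul_right_cancel h3
  refine Matrix.ext fun i j => ?_
  exact io_inj κ E hk (congrFun (congrFun h4 i) j)

theorem rel_comp {n n' : (AddMonoid.End (Fin 15 → E))ˣ × (Mt B)ˣ}
    {m m' m'' : Mt (A0 J)} (h1 : QN43.Rel κ E n' m m') (h2 : QN43.Rel κ E n m' m'') :
    QN43.Rel κ E (n * n') m m'' := by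
  rw [rel_iff] at h1 h2 ⊢
  rw [map_mul, Units.val_mul, mul_assoc, h1, ← mul_assoc, h2, mul_assoc]

/-- **(N1)** the quotient map `NN → O`. -/
theorem exists_qN (hk : Function.Injective κ)
    (faithO : ∀ o : O, (∀ w : W, o • w = w) → o = 1) (pSurj : Function.Surjective p)
    (phiP : ∀ (n : NN0 κ E) (j j' : J), Rel0 κ E n.1 (TrivSqZeroExt.inr j) (TrivSqZeroExt.inr j') →
      ∀ i, Φ j' i = p n • Φ j i) :
    ∃ q : QN43.NN κ E →* O, Function.Surjective q ∧ (∀ g, q (sig κ E g) = 1) ∧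
      (∀ (n : QN43.NN κ E) (j j' : J),
        QN43.Rel κ E n.1 (Matrix.scalar (Fin 15) (TrivSqZeroExt.inr j))
          (Matrix.scalar (Fin 15) (TrivSqZeroExt.inr j')) → ∀ i, Φ j' i = q n • Φ j i) ∧
      (∀ (n : QN43.NN κ E) (j : J), ∃ j' : J,
        QN43.Rel κ E n.1 (Matrix.scalar (Fin 15) (TrivSqZeroExt.inr j))
          (Matrix.scalar (Fin 15) (TrivSqZeroExt.inr j'))) := by
  have hrel : ∀ (n : QN43.NN κ E) (j : J), ∃ j' : J,
        QN43.Rel κ E n.1 (Matrix.scalar (Fin 15) (TrivSqZeroExt.inr j))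
          (Matrix.scalar (Fin 15) (TrivSqZeroExt.inr j')) := by
    intro n j
    obtain ⟨g, n0, h1, h2⟩ := decomp epsA epsA_sq hk n.2
    obtain ⟨j', hj'⟩ := rel0_inr hk n0 h1 j
    refine ⟨j', ?_⟩
    rw [h2]
    exact (rel_scalar_iff g n0 _ _).mpr hj'
  have hex : ∀ n : QN43.NN κ E, ∃ o : O, ∀ (j j' : J),
        QN43.Rel κ E n.1 (Matrix.scalar (Fin 15) (TrivSqZeroExt.inr j))
          (Matrix.scalar (Fin 15) (TrivSqZeroExt.inr j')) → ∀ i, Φ j' i = o • Φ j i := by
    intro n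
    obtain ⟨g, n0, h1, h2⟩ := decomp epsA epsA_sq hk n.2
    refine ⟨p ⟨n0, h1⟩, ?_⟩
    intro j j' hj
    rw [h2] at hj
    exact phiP ⟨n0, h1⟩ j j' ((rel_scalar_iff g n0 _ _).mp hj)
  choose f hf using hex
  have huniq : ∀ (n : QN43.NN κ E) (o : O), (∀ j : J, ∃ j' : J,
        QN43.Rel κ E n.1 (Matrix.scalar (Fin 15) (TrivSqZeroExt.inr j))
          (Matrix.scalar (Fin 15) (TrivSqZeroExt.inr j')) ∧ ∀ i, Φ j' i = o • Φ j i) → f n = o := by
    intro n o ho
    apply faith2 faithO Φ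
    intro j i
    obtain ⟨j', hj', hi⟩ := ho j
    rw [← hi i, hf n j j' hj' i]
  have hmul : ∀ n m : QN43.NN κ E, f (n * m) = f n * f m := by
    intro n m
    apply huniq
    intro j
    obtain ⟨j', hj'⟩ := hrel m j
    obtain ⟨j'', hj''⟩ := hrel n j'
    refine ⟨j'', rel_comp hj' hj'', ?_⟩
    intro i
    rw [hf n j' j'' hj'' i, hf m j j' hj' i, mul_smul]
  refine ⟨MonoidHom.mk' f hmul, ?_, ?_, hf, hrel⟩
  · intro o
    obtain ⟨n0, hn0⟩ := pSurj o
    refine ⟨⟨ten E n0.1, ten_mem n0.2⟩, ?_⟩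
    apply huniq
    intro j
    obtain ⟨j', hj'⟩ := rel0_inr hk n0.1 n0.2 j
    refine ⟨j', ?_, ?_⟩
    · have := (rel_scalar_iff (κ := κ) 1 n0.1 (TrivSqZeroExt.inr j) (TrivSqZeroExt.inr j')).mpr hj'
      rw [map_one, one_mul] at this
      exact this
    · intro i
      rw [phiP n0 j j' hj' i, hn0]
  · intro g
    apply huniq
    intro j
    refine ⟨j, ?_, fun i => (one_smul _ _).symm⟩
    have := (rel_scalar_iff (κ := κ) (E := E) g 1 (TrivSqZeroExt.inr j) (TrivSqZeroExt.inr j)).mpr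
      ⟨fun x => rfl, by simp⟩
    rw [map_one, mul_one] at this
    exact this

/-- **(N2)** `NN` is perfect. -/
theorem NN_perf (hk : Function.Injective κ)
    (coinv : AddSubgroup.closure {w : W | ∃ (o : O) (u : W), w = o • u - u} = ⊤)
    (pSurj : Function.Surjective p)
    (phiP : ∀ (n : NN0 κ E) (j j' : J), Rel0 κ E n.1 (TrivSqZeroExt.inr j) (TrivSqZeroExt.inr j') →
      ∀ i, Φ j' i = p n • Φ j i)
    (perfN : ∀ n : NN0 κ E, ∃ c ∈ commutator (NN0 κ E), ∃ (m : NN0 κ E) (a : (A0 J)ˣ),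
      (∀ x : E, (m.1.1 : AddMonoid.End E) x = (a : A0 J) • x) ∧
      ((m.1.2 : Bˣ) : B) = κ ((a⁻¹ : (A0 J)ˣ) : A0 J) ∧ n = c * m) :
    commutator (QN43.NN κ E) = ⊤ := by
  have hmain : ⁅NN (io κ E) (Fin 15), NN (io κ E) (Fin 15)⁆ = NN (io κ E) (Fin 15) := by
    apply NN_perfect epsA epsA_sq (io_inj κ E hk) (by rw [Fintype.card_fin]; decide)
      (by rw [Fintype.card_fin]; decide)
    · -- coinvariants
      set T := AddSubgroup.closure {c : A0 J | ∃ p ∈ NZ (io κ E), ∃ a : A0 J, epsA a = 0 ∧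
        (p : PP E B) * io κ E a = io κ E (a + c) * p} with hT
      let inrH : J →+ A0 J := TrivSqZeroExt.inrHom (ZMod 2) J
      have h1 : ∀ (i : Fin 15) (w : W), inrH (Φ.symm (Pi.single i w)) ∈ T := by
        intro i w
        have hw : w ∈ AddSubgroup.closure {w : W | ∃ (o : O) (u : W), w = o • u - u} := by
          rw [coinv]; trivial
        induction hw using AddSubgroup.closure_induction with
        | mem x hx =>
          obtain ⟨o, u, rfl⟩ := hx
          obtain ⟨n0, rfl⟩ := pSurj o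
          set j0 := Φ.symm (Pi.single i u) with hj0
          obtain ⟨j', hj'⟩ := rel0_inr hk n0.1 n0.2 j0
          have h2 : Φ j' = Pi.single i (p n0 • u) := by
            funext l
            rw [phiP n0 j0 j' hj' l, hj0, AddEquiv.apply_symm_apply]
            by_cases hl : l = i
            · subst hl; rw [Pi.single_eq_same, Pi.single_eq_same]
            · rw [Pi.single_eq_of_ne hl, Pi.single_eq_of_ne hl, smul_zero]
          have h3 : Φ.symm (Pi.single i (p n0 • u - u)) = j' - j0 := by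
            rw [AddEquiv.symm_apply_eq, map_sub, h2, hj0, AddEquiv.apply_symm_apply,
              Pi.single_sub]
          rw [h3]
          apply AddSubgroup.subset_closure
          refine ⟨p0 E n0.1, (p0_mem_iff n0.1).mp n0.2, TrivSqZeroExt.inr j0, rfl, ?_⟩
          have h4 := (rel0_iff κ E n0.1 _ _).mp hj'
          rw [h4]
          congr 2
          change (TrivSqZeroExt.inr j' : A0 J) = TrivSqZeroExt.inr j0 + TrivSqZeroExt.inr (j' - j0)
          rw [← TrivSqZeroExt.inr_add, add_sub_cancel]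
        | zero => rw [Pi.single_zero, map_zero, map_zero]; exact T.zero_mem
        | add x y _ _ hx hy => rw [Pi.single_add, map_add, map_add]; exact T.add_mem hx hy
        | neg x _ hx => rw [Pi.single_neg, map_neg, map_neg]; exact T.neg_mem hx
      intro b hb
      rw [eq_inr hb]
      have h2 : b.snd = ∑ i, Φ.symm (Pi.single i (Φ b.snd i)) := by
        rw [← map_sum, Finset.univ_sum_single, AddEquiv.symm_apply_apply]
      have h3 : (TrivSqZeroExt.inr b.snd : A0 J) =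
          ∑ i, inrH (Φ.symm (Pi.single i (Φ b.snd i))) := by
        rw [← map_sum, ← h2]
        rfl
      rw [h3]
      exact T.sum_mem fun i _ => h1 i _
    · -- perfectness modulo scalars
      intro p' hp'
      obtain ⟨n0, rfl⟩ := p0_surj E p'
      have hn0 : n0 ∈ NN0 κ E := (p0_mem_iff n0).mpr hp'
      obtain ⟨c, hc, m, a, hm1, hm2, hcm⟩ := perfN ⟨n0, hn0⟩
      have h1 : n0 = c.1 * m.1 := congrArg Subtype.val hcm
      have h2 : m.1 = scl κ E a := by
        refine Prod.ext (Units.ext (AddMonoidHom.ext hm1)) (Units.ext hm2)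
      rw [h1, map_mul, h2, p0_scl]
      apply mul_mem
      · apply Subgroup.mem_sup_left
        have h3 : (commutator (NN0 κ E)).map ((p0 (B := B) E).comp (NN0 κ E).subtype) ≤
            ⁅NZ (io κ E), NZ (io κ E)⁆ := by
          rw [commutator_def, Subgroup.map_commutator]
          apply Subgroup.commutator_mono
          · rintro _ ⟨x, _, rfl⟩
            exact (p0_mem_iff x.1).mp x.2
          · rintro _ ⟨x, _, rfl⟩
            exact (p0_mem_iff x.1).mp x.2
        exact h3 ⟨c, hc, rfl⟩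
      · apply Subgroup.mem_sup_right
        exact ⟨a, rfl⟩
  -- transport
  set f : QN43.NN κ E →* (Matrix (Fin 15) (Fin 15) (PP E B))ˣ :=
    (psi (B := B) E).comp (QN43.NN κ E).subtype with hf
  have hfi : Function.Injective f := fun x y h => Subtype.ext (psi_inj E h)
  have hfr : (⊤ : Subgroup (QN43.NN κ E)).map f = NN (io κ E) (Fin 15) := by
    ext u
    constructor
    · rintro ⟨x, _, rfl⟩
      exact (psi_mem_iff x.1).mp x.2
    · intro hu
      obtain ⟨g, p', rfl, hp'⟩ := NN_decomp epsA epsA_sq (io_inj κ E hk) hu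
      obtain ⟨n0, rfl⟩ := p0_surj E p'
      have hn0 : n0 ∈ NN0 κ E := (p0_mem_iff n0).mpr hp'
      refine ⟨⟨sig0 κ E g * ten E n0, mul_mem (sig0_mem κ E g) (ten_mem hn0)⟩, trivial, ?_⟩
      change psi E (sig0 κ E g * ten E n0) = _
      rw [map_mul, psi_sig, psi_ten]
  have h1 : (commutator (QN43.NN κ E)).map f = (⊤ : Subgroup (QN43.NN κ E)).map f := by
    rw [commutator_def, Subgroup.map_commutator, hfr, hmain]
  exact Subgroup.map_injective hfi h1

theorem G1s_normal (hk : Function.Injective κ) : (G1s κ E).Normal :=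
  G1s_normal' epsA epsA_sq hk

/-- elements of order 151 -/
theorem NN_pow (hk : Function.Injective κ) [Finite O] (cop : ¬ 151 ∣ Nat.card O)
    (faithO : ∀ o : O, (∀ w : W, o • w = w) → o = 1)
    (phiP : ∀ (n : NN0 κ E) (j j' : J), Rel0 κ E n.1 (TrivSqZeroExt.inr j) (TrivSqZeroExt.inr j') →
      ∀ i, Φ j' i = p n • Φ j i)
    (kerSq : ∀ n : NN0 κ E, p n = 1 → n * n = 1)
    (n : QN43.NN κ E) (hn : n ^ 151 = 1) : n ∈ G1s κ E := by
  have h1 : psi E n.1 ∈ (GP (Fin 15) (io κ E)).range := by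
    refine mem_G1_of_pow epsA epsA_sq (io_inj κ E hk) 151 ?_ ((psi_mem_iff n.1).mp n.2) ?_
    · rintro p' hp' ⟨a, ha⟩
      obtain ⟨n0, rfl⟩ := p0_surj E p'
      have hn0 : n0 ∈ NN0 κ E := (p0_mem_iff n0).mpr hp'
      rw [← map_pow] at ha
      have h2 : n0 ^ 151 = scl κ E a := eq_scl ha
      set x : NN0 κ E := ⟨n0, hn0⟩ with hx
      have h3 : x ^ 151 = ⟨scl κ E a, scl_mem a⟩ := Subtype.ext h2
      have h4 : p (x ^ 151) = 1 := by
        rw [h3]
        exact p_eq_one faithO phiP _ (rel0_scl a)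
      rw [map_pow] at h4
      have h5 : orderOf (p x) ∣ 151 := orderOf_dvd_of_pow_eq_one h4
      have h6 : orderOf (p x) = 1 := by
        rcases (Nat.dvd_prime (by norm_num)).mp h5 with h7 | h7
        · exact h7
        · exfalso
          apply cop
          rw [← h7]
          exact orderOf_dvd_natCard _
      have h7 : p x = 1 := orderOf_eq_one_iff.mp h6
      have h8 := kerSq x h7
      have h9 : x ^ 151 = x := by
        have : x ^ 151 = (x * x) ^ 75 * x := by
          rw [← pow_two, ← pow_mul, ← pow_succ]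
        rw [this, h8, one_pow, one_mul]
      rw [h9] at h3
      have h10 : n0 = scl κ E a := congrArg Subtype.val h3
      refine ⟨a, ?_⟩
      rw [h10, p0_scl]
      rfl
    · have := congrArg Subtype.val hn
      change n.1 ^ 151 = 1 at this
      rw [← map_pow, this, map_one]
  obtain ⟨g, hg⟩ := h1
  refine ⟨g, ?_⟩
  apply Subtype.ext
  apply psi_inj E
  change psi E (sig0 κ E g) = _
  rw [psi_sig, hg]

theorem NN_comm (faithO : ∀ o : O, (∀ w : W, o • w = w) → o = 1)
    (phiP : ∀ (n : NN0 κ E) (j j' : J), Rel0 κ E n.1 (TrivSqZeroExt.inr j) (TrivSqZeroExt.inr j') →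
      ∀ i, Φ j' i = p n • Φ j i)
    (kerComm : ∀ n m : NN0 κ E, p n = 1 → p m = 1 → n * m = m * n)
    (n m : QN43.NN κ E)
    (hn : ∀ g, n * sig κ E g = sig κ E g * n) (hm : ∀ g, m * sig κ E g = sig κ E g * m) :
    n * m = m * n := by
  obtain ⟨n0, hn0, hn1, hn2⟩ := centralizer_eq (n := n.1) (κ := κ)
    (fun g => congrArg Subtype.val (hn g))
  obtain ⟨m0, hm0, hm1, hm2⟩ := centralizer_eq (n := m.1) (κ := κ)
    (fun g => congrArg Subtype.val (hm g))
  have h1 := kerComm ⟨n0, hn0⟩ ⟨m0, hm0⟩ (p_eq_one faithO phiP ⟨n0, hn0⟩ hn2)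
    (p_eq_one faithO phiP ⟨m0, hm0⟩ hm2)
  have h2 : n0 * m0 = m0 * n0 := congrArg Subtype.val h1
  apply Subtype.ext
  change n.1 * m.1 = m.1 * n.1
  rw [hn1, hm1, ← map_mul, ← map_mul, h2]

/-- exponent two implies commutative -/
theorem kerComm_of_kerSq (kerSq : ∀ n : NN0 κ E, p n = 1 → n * n = 1) :
    ∀ n m : NN0 κ E, p n = 1 → p m = 1 → n * m = m * n := by
  intro n m hn hm
  have h1 := kerSq n hn
  have h2 := kerSq m hm
  have h3 := kerSq (n * m) (by rw [map_mul, hn, hm, one_mul])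
  have h4 : n⁻¹ = n := inv_eq_of_mul_eq_one_right h1
  have h5 : m⁻¹ = m := inv_eq_of_mul_eq_one_right h2
  have h6 : (n * m)⁻¹ = n * m := inv_eq_of_mul_eq_one_right h3
  rw [← h6, _root_.mul_inv_rev, h4, h5]

end main

end QH42
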