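import Mathlib
import Pool.Agent.Helper43.QN.QSpec
import Pool.Agent.Helper42.QH.NNMain

/-!
# AUT project: the statements (N1), (N2) of `Helper43/QN/Steps`
-/

set_option autoImplicit false
set_option linter.unusedSectionVars false

namespace QS42

open QN43

variable {J B E W U O : Type}
    [AddCommGroup J] [Module (ZMod 2) J] [Module (ZMod 2)ᵐᵒᵖ J] [IsCentralScalar (ZMod 2) J]
    [Ring B] [AddCommGroup E] [Module (A0 J) E] [AddCommGroup W] [Module (A0 J) W]
    [AddCommGroup U] [Module B U] [Group O] [DistribMulAction O W] [DistribMulAction O U]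
    {κ : A0 J →+* B} {inc : E →+ W} {jU : U →+ (W →+ ZMod 2)} {Φ : J ≃+ (Fin 15 → W)}
    {p : NN0 κ E →* O}

/-- (N1) the quotient map exists. -/
theorem exists_qN (h : GFacts κ inc jU Φ p) : ∃ q : NN κ E →* O, QSpec κ E Φ q := by
  obtain ⟨q, h1, h2, h3, h4⟩ := QH42.exists_qN h.kapInj h.faithO h.pSurj h.phiP
  exact ⟨q, h1, h2, h3, h4⟩

/-- (N2) `NN` is perfect, `GL_15(A0)` is normal in it, of index prime to `151`, and its
centraliser is commutative. -/
theorem NN_perf (h : GFacts κ inc jU Φ p) : commutator (NN κ E) = ⊤ :=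
  QH42.NN_perf h.kapInj h.coinv h.pSurj h.phiP h.perfN

theorem G1s_normal (h : GFacts κ inc jU Φ p) : (G1s κ E).Normal :=
  QH42.G1s_normal h.kapInj

theorem NN_pow (h : GFacts κ inc jU Φ p) (n : NN κ E) (hn : n ^ 151 = 1) : n ∈ G1s κ E := by
  have := h.finO
  exact QH42.NN_pow h.kapInj h.cop h.faithO h.phiP h.kerSq n hn

theorem NN_comm (h : GFacts κ inc jU Φ p) (n m : NN κ E)
    (hn : ∀ g, n * sig κ E g = sig κ E g * n) (hm : ∀ g, m * sig κ E g = sig κ E g * m) :
    n * m = m * n :=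
  QH42.NN_comm h.faithO h.phiP (QH42.kerComm_of_kerSq h.kerSq) n m hn hm

end QS42
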